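import Mathlib

/-!
# Turán's problem with larger independent sets: definitions and statements of the parts

`H : Finset V → Prop` is a `t`-graph (it holds for sets with `t` elements only). `Cls t k q H`: among
any `k (q - 1) + 1` vertices (repetitions allowed) there are `q` independent ones. The aim is
`den t H ≤ 1 - k ^ (1 - t)` for all `q ≥ q₀(t, k)`, by induction on the uniformity `t`.
-/

set_option autoImplicit false

open Finset
open scoped Classical

namespace Pool.Agent.N594.CT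

/-- `H` holds only for sets with `t` elements. -/
def Unif (t : ℕ) {V : Type} (H : Finset V → Prop) : Prop := ∀ Z, H Z → Z.card = t

/-- The set `J` of indices is independent: the images of its `t`-subsets are not edges. -/
def Ind (t : ℕ) {V ι : Type} (H : Finset V → Prop) (σ : ι → V) (J : Finset ι) : Prop :=
  ∀ e ⊆ J, e.card = t → ¬ H (e.image σ)

/-- Every sequence of `k (q - 1) + 1` vertices has an independent set of `q` indices. -/
def Cls (t k q : ℕ) {V : Type} (H : Finset V → Prop) : Prop :=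
  ∀ σ : Fin (k * (q - 1) + 1) → V, ∃ J : Finset (Fin (k * (q - 1) + 1)), J.card = q ∧ Ind t H σ J

/-- The number of sequences of `t` vertices which form an edge. -/
noncomputable def E (t : ℕ) {V : Type} [Fintype V] (H : Finset V → Prop) : ℕ :=
  (univ.filter fun x : Fin t → V => H (univ.image x)).card

/-- The density. -/
noncomputable def den (t : ℕ) {V : Type} [Fintype V] (H : Finset V → Prop) : ℝ :=
  (E t H : ℝ) / (Fintype.card V : ℝ) ^ t

/-- The degree of `w` in an `(l + 1)`-graph, divided by `n ^ l`. -/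
noncomputable def dg (l : ℕ) {V : Type} [Fintype V] (H : Finset V → Prop) (w : V) : ℝ :=
  ((univ.filter fun y : Fin l → V => H (insert w (univ.image y))).card : ℝ) /
    (Fintype.card V : ℝ) ^ l

/-- The extremal density `1 - k ^ (1 - t)`. -/
noncomputable def kap (k t : ℕ) : ℝ := 1 - 1 / (k : ℝ) ^ (t - 1)

/-- All `t`-sets which are not inside one of the `k` parts (with `r` elements) of `K` are edges. -/
def WC (t k r : ℕ) {V : Type} (H : Finset V → Prop) (K : Fin k × Fin r → V) : Prop :=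
  ∀ e : Finset (Fin k × Fin r), e.card = t → (∃ a ∈ e, ∃ b ∈ e, a.1 ≠ b.1) → H (e.image K)

/-- The density of these configurations. -/
noncomputable def pw (t k r : ℕ) {V : Type} [Fintype V] (H : Finset V → Prop) : ℝ :=
  ((univ.filter fun K : Fin k × Fin r → V => WC t k r H K).card : ℝ) /
    (Fintype.card V : ℝ) ^ (k * r)

/-- The derived `l`-graph of the `(l + 1)`-graph `H` with respect to the vertices `S i`: the `l`-sets
`Y` such that `insert (S i) Y` is an edge for more than `θ` indices `i`. -/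
def der (l : ℕ) {V ι : Type} [Fintype ι] (H : Finset V → Prop) (S : ι → V) (θ : ℝ) :
    Finset V → Prop :=
  fun Y => Y.card = l ∧ θ < ((univ.filter fun i : ι => H (insert (S i) Y)).card : ℝ)

/-- The degree within the sample `S`. -/
noncomputable def sdg (l : ℕ) {V : Type} (H : Finset V → Prop) {s : ℕ} (S : Fin s → V)
    (i : Fin s) : ℝ :=
  ((univ.filter fun y : Fin l → Fin s => H (insert (S i) (univ.image fun j => S (y j)))).card : ℝ) /
    (s : ℝ) ^ l

/-- The proportion of the sample vertices which form an edge with the sequence `y`. -/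
noncomputable def Wt (l : ℕ) {V : Type} (H : Finset V → Prop) {s : ℕ} (S : Fin s → V)
    (y : Fin l → V) : ℝ :=
  ((univ.filter fun i : Fin s => H (insert (S i) (univ.image y))).card : ℝ) / (s : ℝ)

/-- The proportion of all vertices which form an edge with the sequence `y`. -/
noncomputable def Dt (l : ℕ) {V : Type} [Fintype V] (H : Finset V → Prop) (y : Fin l → V) : ℝ :=
  ((univ.filter fun w : V => H (insert w (univ.image y))).card : ℝ) / (Fintype.card V : ℝ)

/-- The number of pairs of a vertex `w` and a sequence `y` which is an edge of `H'` such that `w` and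
`y` do not form an edge of `H`. -/
noncomputable def miss (l : ℕ) {V : Type} [Fintype V] (H H' : Finset V → Prop) : ℕ :=
  (univ.filter fun p : V × (Fin l → V) =>
    H' (univ.image p.2) ∧ ¬ H (insert p.1 (univ.image p.2))).card

/-! ### The induction statements -/

/-- The density theorem for given parameters. -/
def SA (t k q : ℕ) : Prop :=
  ∀ (V : Type) [Fintype V] [Nonempty V] (H : Finset V → Prop), Unif t H → Cls t k q H →
    den t H ≤ kap k t

/-- Many configurations `WC` if the density is almost extremal. -/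
def SB (t k q r : ℕ) (ε c : ℝ) : Prop :=
  ∀ (V : Type) [Fintype V] [Nonempty V] (H : Finset V → Prop), Unif t H → Cls t k q H →
    kap k t - ε ≤ den t H → c ≤ pw t k r H

/-- The induction statement. -/
def Good (t k q r : ℕ) : Prop := SA t k q ∧ ∃ ε : ℝ, 0 < ε ∧ ∃ c : ℝ, 0 < c ∧ SB t k q r ε c

/-! ### The parts -/

/-- CT/W: the weighted form of the class. -/
def S_W : Prop := ∀ (t k q : ℕ) (V : Type) (H : Finset V → Prop), Cls t k q H →
  ∀ (ι : Type) [Fintype ι] (ρ : ι → V) (c : ι → ℕ), ∑ i, c i = k * (q - 1) + 1 →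
    ∃ I : Finset ι, Ind t H ρ I ∧ q ≤ ∑ i ∈ I, c i

/-- CT/VAR: averages over a random sample. -/
def S_VAR : Prop := ∀ (V : Type) [Fintype V] [Nonempty V] (l s : ℕ) (i : Fin s)
  (f : V → (Fin l → V) → ℝ), (∀ w z, 0 ≤ f w z) → (∀ w z, f w z ≤ 1) →
    (∑ S : Fin s → V, |(∑ y : Fin l → Fin s, f (S i) (fun j => S (y j))) / (s : ℝ) ^ l -
      (∑ z : Fin l → V, f (S i) z) / (Fintype.card V : ℝ) ^ l|) ≤
      2 * l / Real.sqrt s * (Fintype.card V : ℝ) ^ s

/-- CT/GS: a good sample. -/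
def S_GS : Prop := ∀ (V : Type) [Fintype V] [Nonempty V] (H : Finset V → Prop) (l s : ℕ)
  (Bad : Finset V) (ε : ℝ), 0 < s → 0 ≤ ε → (Bad.card : ℝ) ≤ ε * Fintype.card V →
  ∃ S : Fin s → V,
    ((univ.filter fun i : Fin s => S i ∈ Bad).card : ℝ) ≤ (ε + (2 * l + 2) / Real.sqrt s) * s ∧
    (∑ i : Fin s, |sdg l H S i - dg l H (S i)|) ≤ (ε + (2 * l + 2) / Real.sqrt s) * s ∧
    (∑ y : Fin l → V, |Wt l H S y - Dt l H y|) ≤
      (ε + (2 * l + 2) / Real.sqrt s) * (Fintype.card V : ℝ) ^ l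

/-- CT/NC: no large independent sets in a good sample. -/
def S_NC : Prop := ∀ (V : Type) [Fintype V] [Nonempty V] (H : Finset V → Prop) (l k s : ℕ)
  (S : Fin s → V) (ε δ η : ℝ), Unif (l + 1) H → 1 ≤ l → 1 ≤ k → 0 < s → 0 ≤ ε → 0 ≤ η → 0 < δ →
  ((univ.filter fun i : Fin s => dg l H (S i) ≤ kap k (l + 1) - ε).card : ℝ) ≤ η * s →
  (∑ i : Fin s, |sdg l H S i - dg l H (S i)|) ≤ η * s →
  (ε + 2 * k * η) * (k : ℝ) ^ (l - 1) < δ →
  ∀ J : Finset (Fin s), Ind (l + 1) H S J → (J.card : ℝ) ≤ (1 / k + δ) * s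

/-- CT/CL: the derived graph of a sample without large independent sets is in the class. -/
def S_CL : Prop := ∀ (l k q' s : ℕ) (δ : ℝ), 1 ≤ l → 1 ≤ k → 1 ≤ q' → 0 < s → 0 < δ →
  4 * (k : ℝ) ^ 2 * ((k * (q' - 1) + 1 : ℕ) : ℝ) * δ ≤ 1 → ∃ q0 : ℕ, ∀ q : ℕ, q0 ≤ q →
  ∀ (V : Type) (H : Finset V → Prop) (S : Fin s → V), Cls (l + 1) k q H →
  (∀ J : Finset (Fin s), Ind (l + 1) H S J → (J.card : ℝ) ≤ (1 / k + δ) * s) →
  Cls l k q' (der l H S ((1 - 1 / k + 2 * k * ((k * (q' - 1) + 1 : ℕ) : ℝ) * δ) * s))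

/-- CT/AV: the averages for a good sample. -/
def S_AV : Prop := ∀ (V : Type) [Fintype V] [Nonempty V] (H : Finset V → Prop) (l k s : ℕ)
  (S : Fin s → V) (ε η δ : ℝ), Unif (l + 1) H → 1 ≤ l → 1 ≤ k → 0 < s → 0 ≤ ε → 0 ≤ η → 0 ≤ δ →
  ((univ.filter fun i : Fin s => dg l H (S i) ≤ kap k (l + 1) - ε).card : ℝ) ≤ η * s →
  (∑ y : Fin l → V, |Wt l H S y - Dt l H y|) ≤ η * (Fintype.card V : ℝ) ^ l →
  den l (der l H S ((1 - 1 / k + δ) * s)) ≤ kap k l →
  kap k l - k * (ε + η + δ) ≤ den l (der l H S ((1 - 1 / k + δ) * s)) ∧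
  (miss l H (der l H S ((1 - 1 / k + δ) * s)) : ℝ) ≤
    (δ + ε + 2 * η) * (Fintype.card V : ℝ) ^ (l + 1)

/-- CT/KK: from the derived graph to the graph. -/
def S_KK : Prop := ∀ (V : Type) [Fintype V] [Nonempty V] (H H' : Finset V → Prop) (l k r : ℕ)
  (δ : ℝ), 2 ≤ l → Unif l H' → (miss l H H' : ℝ) ≤ δ * (Fintype.card V : ℝ) ^ (l + 1) →
  pw l k r H' - 2 ^ (k * r) * δ ≤ pw (l + 1) k r H

/-- CT/REG: few vertices of small degree. -/
def S_REG : Prop := ∀ (V : Type) [Fintype V] [Nonempty V] (H : Finset V → Prop) (l : ℕ)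
  (Λ ε : ℝ), 0 < ε → ε ≤ 1 → Λ ≤ 1 → 2 * (l + 1) / ε ≤ Fintype.card V →
  (∀ W : Finset V, W.Nonempty →
    ((univ.filter fun x : Fin (l + 1) → V => (∀ i, x i ∈ W) ∧ H (univ.image x)).card : ℝ) ≤
      Λ * (W.card : ℝ) ^ (l + 1)) →
  Λ - ε ^ 2 / 8 ≤ den (l + 1) H →
  ((univ.filter fun w : V => dg l H w ≤ Λ - ε).card : ℝ) ≤ ε * Fintype.card V

/-- CT/CLN: blow-ups. -/
def S_CLN : Prop := ∀ (V : Type) [Fintype V] [Nonempty V] (H : Finset V → Prop) (t k q N : ℕ),
  1 ≤ N → 1 ≤ t → Unif t H → Cls t k q H →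
  ∃ H2 : Finset (V × Fin N) → Prop, Unif t H2 ∧ Cls t k q H2 ∧ den t H2 = den t H ∧
    ∀ r : ℕ, pw t k r H2 = pw t k r H

/-- CT/SUB: subsets of the vertices. -/
def S_SUB : Prop := ∀ (V : Type) [Fintype V] [Nonempty V] (H : Finset V → Prop) (t k q : ℕ)
  (W : Finset V) (Λ : ℝ), W.Nonempty → Unif t H → Cls t k q H →
  (∀ (U : Type) [Fintype U] [Nonempty U] (G : Finset U → Prop), Unif t G → Cls t k q G →
    den t G ≤ Λ) →
  ((univ.filter fun x : Fin t → V => (∀ i, x i ∈ W) ∧ H (univ.image x)).card : ℝ) ≤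
    Λ * (W.card : ℝ) ^ t

/-- CT/XC: the derived graph of a configuration `WC` is in the class. -/
def S_XC : Prop := ∀ l k q' r : ℕ, 1 ≤ l → 1 ≤ k → 1 ≤ q' → l + 1 ≤ r → ∃ q0 : ℕ, ∀ q : ℕ, q0 ≤ q →
  ∀ (V : Type) (H : Finset V → Prop) (K : Fin k × Fin r → V), Cls (l + 1) k q H →
  WC (l + 1) k r H K → Cls l k q' (der l H K ((1 - 1 / k) * (Fintype.card (Fin k × Fin r) : ℝ)))

/-- CT/XA: the average degree of a configuration. -/
def S_XA : Prop := ∀ (V : Type) [Fintype V] [Nonempty V] (H : Finset V → Prop) (l k : ℕ)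
  (ι : Type) [Fintype ι] [Nonempty ι] (K : ι → V), Unif (l + 1) H → 1 ≤ l → 1 ≤ k →
  den l (der l H K ((1 - 1 / k) * (Fintype.card ι : ℝ))) ≤ kap k l →
  ∑ i, dg l H (K i) ≤ kap k (l + 1) * Fintype.card ι

/-- CT/BA: graphs, the density theorem (Turán's theorem). -/
def S_BA : Prop := ∀ k q : ℕ, 1 ≤ k → 2 ≤ q → SA 2 k q

/-- CT/BB: graphs, many copies of the complete `k`-partite graph with parts of size `r`. -/
def S_BB : Prop := ∀ k r : ℕ, 2 ≤ k → ∃ ε : ℝ, 0 < ε ∧ ∃ c : ℝ, 0 < c ∧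
  ∀ (V : Type) [Fintype V] [Nonempty V] (H : Finset V → Prop), Unif 2 H →
    kap k 2 - ε ≤ den 2 H → c ≤ pw 2 k r H

/-- CT/X32: uniformity three, two parts, a complete 3-graph on four vertices. -/
def S_X32 : Prop := ∀ q : ℕ, q = 6 ∨ 8 ≤ q → ∀ (V : Type) (H : Finset V → Prop) (K : Fin 4 → V),
  Cls 3 2 q H → (∀ e : Finset (Fin 4), e.card = 3 → H (e.image K)) →
  Cls 2 2 2 (der 2 H K ((1 - 1 / (2 : ℕ)) * (Fintype.card (Fin 4) : ℝ)))

end Pool.Agent.N594.CT
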