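import Pool.Agent.N594.CT.Stm
import Pool.Agent.N442.ES.Cnt

/-!
# From the class with repetitions to large `t`-graphs
-/

set_option autoImplicit false

open Finset
open scoped Classical

namespace Pool.Agent.N594.CT

open Pool.Agent.N442.ES

/-- Any `m` vertices of `G` contain `q` vertices which contain no edge. -/
def Local (m q : ℕ) {n : ℕ} (G : Finset (Finset (Fin n))) : Prop :=
  ∀ S : Finset (Fin n), S.card = m → ∃ J ⊆ S, J.card = q ∧ ∀ e ∈ G, ¬ e ⊆ J

/-- the decidability instance does not matter -/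
theorem image_inst {α β : Type} (i1 i2 : DecidableEq β) (f : α → β) (s : Finset α) :
    @Finset.image α β i1 f s = @Finset.image α β i2 f s := by
  have h : i1 = i2 := Subsingleton.elim _ _
  rw [h]

/-- the pattern of a blow-up is in the class -/
theorem cls_of {t k q n s : ℕ} {G : Finset (Finset (Fin n))} (hG : Local (k * (q - 1) + 1) q G)
    {X : Finset (Finset (Fin s))} {y : Fin s → Fin (k * (q - 1) + 1) → Fin n}
    (hy : ∀ f : Fin s → Fin (k * (q - 1) + 1), (fun i => y i (f i)) ∈ SR t G X)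
    (hi : ∀ i, Function.Injective (y i)) :
    Cls t k q (fun Z : Finset (Fin s) => Z.card = t ∧ Z ∈ X) := by
  intro σ
  have hSR : ∀ f : Fin s → Fin (k * (q - 1) + 1), Function.Injective (fun i => y i (f i)) ∧
      ∀ e : Finset (Fin s), e.card = t → (e.image (fun i => y i (f i)) ∈ G ↔ e ∈ X) := fun f =>
    (mem_filter.mp (hy f)).2
  obtain ⟨v, hv⟩ : ∃ v : Fin (k * (q - 1) + 1) → Fin n, v = fun a => y (σ a) a := ⟨_, rfl⟩
  have hinj : Function.Injective v := by
    intro a b hab
    by_contra hne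
    rw [hv] at hab
    by_cases hs : σ a = σ b
    · simp only [hs] at hab
      exact hne (hi _ hab)
    · have h1 := (hSR (fun i => if i = σ a then a else b)).1
      have h2 : (fun i => y i ((fun i => if i = σ a then a else b) i)) (σ a) =
          (fun i => y i ((fun i => if i = σ a then a else b) i)) (σ b) := by
        simp only [if_pos, if_neg (Ne.symm hs)]
        exact hab
      exact hs (h1 h2)
  obtain ⟨J, hJS, hJc, hJi⟩ := hG (univ.image v) (by rw [card_image_of_injective _ hinj, card_univ,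
    Fintype.card_fin])
  have hJim : (univ.filter fun a => v a ∈ J).image v = J := by
    ext w
    rw [mem_image]
    constructor
    · rintro ⟨a, ha, rfl⟩
      exact (mem_filter.mp ha).2
    · intro hw
      obtain ⟨a, -, ha⟩ := mem_image.mp (hJS hw)
      exact ⟨a, mem_filter.mpr ⟨mem_univ _, ha ▸ hw⟩, ha⟩
  refine ⟨univ.filter fun a => v a ∈ J, ?_, ?_⟩
  · have h3 := card_image_of_injective (univ.filter fun a => v a ∈ J) hinj
    rw [hJim] at h3
    exact h3.symm.trans hJc
  · rintro e he hec ⟨hc, hX⟩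
    have hσ : Set.InjOn σ e := by
      have : (e.image σ).card = e.card := by
        rw [hec, ← hc]
        congr 1
        ext x
        simp
      exact card_image_iff.mp this
    obtain ⟨f, hf⟩ : ∃ f : Fin s → Fin (k * (q - 1) + 1), f = fun i =>
      if h : ∃ a, a ∈ e ∧ σ a = i then h.choose else ⟨0, by omega⟩ := ⟨_, rfl⟩
    have hfe : ∀ a ∈ e, f (σ a) = a := by
      intro a ha
      have h : ∃ b, b ∈ e ∧ σ b = σ a := ⟨a, ha, rfl⟩
      rw [hf]
      simp only [dif_pos h]
      exact hσ h.choose_spec.1 ha h.choose_spec.2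
    have h1 := ((hSR f).2 (e.image σ) (by
      rw [← hc]
      congr 1
      ext x
      simp)).2 (by
      have h6 := hX
      rw [image_inst _ (instDecidableEqFin s) σ e] at h6
      exact h6)
    have h2 : (e.image σ).image (fun i => y i (f i)) = e.image v := by
      rw [image_image]
      refine image_congr fun a ha => ?_
      simp only [Function.comp_apply, hfe a (mem_coe.mp ha), hv]
    rw [h2] at h1
    refine hJi _ h1 fun w hw => ?_
    obtain ⟨a, ha, rfl⟩ := mem_image.mp hw
    exact (mem_filter.mp (he ha)).2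

/-- the density of a pattern in the class -/
theorem QR_of {t k q s : ℕ} (hs : 0 < s) (hA : SA t k q) {X : Finset (Finset (Fin s))}
    (hX : Cls t k q (fun Z : Finset (Fin s) => Z.card = t ∧ Z ∈ X)) :
    ((QR t X).card : ℝ) ≤ kap k t * (s : ℝ) ^ t := by
  have : Nonempty (Fin s) := ⟨⟨0, hs⟩⟩
  obtain ⟨H, hH⟩ : ∃ H : Finset (Fin s) → Prop, H = fun Z => Z.card = t ∧ Z ∈ X := ⟨_, rfl⟩
  rw [← hH] at hX
  have h := hA (Fin s) H (fun Z hZ => by rw [hH] at hZ; exact hZ.1) hX
  have hsR : (0 : ℝ) < s := by exact_mod_cast hs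
  unfold den at h
  rw [Fintype.card_fin, div_le_iff₀ (by positivity)] at h
  refine le_trans (Nat.cast_le.mpr (card_le_card ?_)) h
  intro f hf
  obtain ⟨h1, h2⟩ := (mem_filter.mp hf).2
  rw [mem_filter]
  refine ⟨mem_univ _, ?_⟩
  rw [hH]
  refine ⟨?_, ?_⟩
  · have h3 := card_image_of_injective (univ : Finset (Fin t)) h1
    rw [card_univ, Fintype.card_fin, image_inst _ (instDecidableEqFin s) f univ] at h3
    rw [image_inst _ (instDecidableEqFin s) f univ]
    exact h3
  · rw [image_inst _ (instDecidableEqFin s) f univ]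
    exact h2

/-- **The transfer.** -/
theorem transfer {t k q : ℕ} (ht : 1 ≤ t) (hk : 1 ≤ k) (hA : SA t k q) {ε : ℝ} (hε : 0 < ε) :
    ∃ N : ℕ, ∀ n : ℕ, N ≤ n → ∀ G : Finset (Finset (Fin n)), (∀ e ∈ G, e.card = t) →
      Local (k * (q - 1) + 1) q G →
      (G.card : ℝ) ≤ (1 - 1 / (k : ℝ) ^ (t - 1) + ε) * (n.choose t : ℝ) := by
  have hkap : 0 ≤ kap k t := by
    unfold kap
    have h1 : (1 : ℝ) ≤ (k : ℝ) ^ (t - 1) := one_le_pow₀ (by exact_mod_cast hk)
    have h2 : 1 / (k : ℝ) ^ (t - 1) ≤ 1 := by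
      rw [div_le_one (by linarith)]
      exact h1
    linarith
  obtain ⟨δ, hδ, N, hN⟩ := main_r t (kap k t) (fun n G => Local (k * (q - 1) + 1) q G)
    (fun _ _ _ _ _ => False) (fun _ _ => 0) hkap ht
    (fun s T => ⟨0, le_rfl, fun n _ G => by simp⟩)
    (fun s hs => ⟨k * (q - 1) + 1, Nat.succ_pos _, fun n G hG X y hy hi hX => by
      have h := QR_of hs hA (cls_of hG hy hi)
      linarith⟩) hε
  exact ⟨N, fun n hn G h1 h2 => hN n hn G h1 h2 hδ.le⟩

end Pool.Agent.N594.CT
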