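import Pool.Agent.N594.CT.Asm

/-!
# Uniformity three, two parts: explicit parameters
-/

set_option autoImplicit false

open Finset
open scoped Classical

namespace Pool.Agent.N594.CT

/-- the maps for which the triple opposite to `i` is not an edge -/
theorem opp_card {V : Type} [Fintype V] (H : Finset V → Prop) (i : Fin 4) :
    (univ.filter fun K : Fin 4 → V => ¬ H ((univ.erase i).image K)).card =
      Fintype.card V * (Fintype.card V ^ 3 - E 3 H) := by
  have h1 : (univ.filter fun K : Fin 4 → V => ¬ H ((univ.erase i).image K)).card =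
      ((univ : Finset V) ×ˢ (univ.filter fun x : Fin 3 → V => ¬ H (univ.image x))).card := by
    refine card_bij (fun K _ => (K i, fun j => K (i.succAbove j))) ?_ ?_ ?_
    · intro K hK
      refine mem_product.mpr ⟨mem_univ _, mem_filter.mpr ⟨mem_univ _, ?_⟩⟩
      have h := (mem_filter.mp hK).2
      have e : (univ.erase i).image K = univ.image fun j => K (i.succAbove j) := by
        ext w
        simp only [mem_image, mem_erase, mem_univ, and_true, true_and]
        constructor
        · rintro ⟨a, ha, rfl⟩
          obtain ⟨j, hj⟩ := Fin.exists_succAbove_eq ha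
          exact ⟨j, by rw [hj]⟩
        · rintro ⟨j, rfl⟩
          exact ⟨_, Fin.succAbove_ne i j, rfl⟩
      rw [e] at h
      exact h
    · intro K _ K' _ h
      have ha := (Prod.mk.inj h).1
      have hb := (Prod.mk.inj h).2
      funext a
      by_cases haa : a = i
      · rw [haa]; exact ha
      · obtain ⟨j, rfl⟩ := Fin.exists_succAbove_eq haa
        exact congrFun hb j
    · rintro ⟨w, x⟩ hp
      have hx := (mem_filter.mp (mem_product.mp hp).2).2
      refine ⟨i.insertNth w x, mem_filter.mpr ⟨mem_univ _, ?_⟩, ?_⟩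
      · have e : (univ.erase i).image (i.insertNth w x : Fin 4 → V) = univ.image x := by
          ext u
          simp only [mem_image, mem_erase, mem_univ, and_true, true_and]
          constructor
          · rintro ⟨a, ha, rfl⟩
            obtain ⟨j, hj⟩ := Fin.exists_succAbove_eq ha
            exact ⟨j, by rw [← hj, Fin.insertNth_apply_succAbove]⟩
          · rintro ⟨j, rfl⟩
            exact ⟨_, Fin.succAbove_ne i j, by rw [Fin.insertNth_apply_succAbove]⟩
        rw [e]
        exact hx
      · simp only [Fin.insertNth_apply_same, Fin.insertNth_apply_succAbove]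
  rw [h1, card_product, card_univ]
  congr 1
  have h2 : (univ.filter fun x : Fin 3 → V => H (univ.image x)).card +
      (univ.filter fun x : Fin 3 → V => ¬ H (univ.image x)).card = Fintype.card V ^ 3 := by
    rw [card_filter_add_card_filter_not, card_univ, Fintype.card_fun, Fintype.card_fin]
  unfold E
  omega

/-- many complete 3-graphs on four vertices -/
theorem many4 {V : Type} [Fintype V] [Nonempty V] (H : Finset V → Prop) :
    (4 * den 3 H - 3) * (Fintype.card V : ℝ) ^ 4 ≤
      ((univ.filter fun K : Fin 4 → V => ∀ e : Finset (Fin 4), e.card = 3 →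
        H (e.image K)).card : ℝ) := by
  have h1 : (univ : Finset (Fin 4 → V)) ⊆
      (univ.filter fun K : Fin 4 → V => ∀ e : Finset (Fin 4), e.card = 3 → H (e.image K)) ∪
      (univ : Finset (Fin 4)).biUnion fun i =>
        univ.filter fun K : Fin 4 → V => ¬ H ((univ.erase i).image K) := by
    intro K _
    rw [mem_union]
    by_cases h : ∀ e : Finset (Fin 4), e.card = 3 → H (e.image K)
    · left
      exact mem_filter.mpr ⟨mem_univ _, h⟩
    · right
      push Not at h
      obtain ⟨e, he, hH⟩ := h
      have hc : eᶜ.card = 1 := by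
        rw [card_compl, he, Fintype.card_fin]
      obtain ⟨i, hi⟩ := card_eq_one.mp hc
      have he2 : e = univ.erase i := by
        ext a
        have := congrArg (fun s : Finset (Fin 4) => a ∈ s) hi
        simp only [mem_compl, mem_singleton, eq_iff_iff] at this
        simp only [mem_erase, mem_univ, and_true]
        tauto
      refine mem_biUnion.mpr ⟨i, mem_univ _, mem_filter.mpr ⟨mem_univ _, ?_⟩⟩
      rw [← he2]
      exact hH
  have h2 := (card_le_card h1).trans (card_union_le _ _)
  have h3 : ((univ : Finset (Fin 4)).biUnion fun i =>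
        univ.filter fun K : Fin 4 → V => ¬ H ((univ.erase i).image K)).card ≤
      4 * (Fintype.card V * (Fintype.card V ^ 3 - E 3 H)) := by
    refine card_biUnion_le.trans ?_
    rw [sum_congr rfl fun i _ => opp_card H i, sum_const, card_univ, Fintype.card_fin, smul_eq_mul]
  rw [card_univ, Fintype.card_fun, Fintype.card_fin] at h2
  have h4 : E 3 H ≤ Fintype.card V ^ 3 := E_le 3 H
  have h5 : (Fintype.card V : ℝ) ^ 4 ≤ ((univ.filter fun K : Fin 4 → V =>
      ∀ e : Finset (Fin 4), e.card = 3 → H (e.image K)).card : ℝ) +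
      4 * ((Fintype.card V : ℝ) * ((Fintype.card V : ℝ) ^ 3 - E 3 H)) := by
    have h6 := h2.trans (Nat.add_le_add_left h3 _)
    have h7 := (Nat.cast_le (α := ℝ)).mpr h6
    rw [Nat.cast_add, Nat.cast_mul, Nat.cast_mul, Nat.cast_sub h4] at h7
    push_cast at h7
    exact h7
  have hn : (0 : ℝ) < Fintype.card V := by exact_mod_cast Fintype.card_pos (α := V)
  have hE : (E 3 H : ℝ) = den 3 H * (Fintype.card V : ℝ) ^ 3 := by
    unfold den
    field_simp
  rw [hE] at h5
  nlinarith [h5]

/-- **Uniformity three, two parts.** -/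
theorem sa32 (hREG : S_REG) (hCLN : S_CLN) (hSUB : S_SUB) (hXA : S_XA) (hX32 : S_X32)
    (hBA : S_BA) {q : ℕ} (hq : q = 6 ∨ 8 ≤ q) : SA 3 2 q := by
  refine supA hREG hCLN hSUB hXA (l := 2) (k := 2) (q' := 2) (by norm_num) (by norm_num) (Fin 4)
    (fun V H K => ∀ e : Finset (Fin 4), e.card = 3 → H (e.image K))
    (hBA 2 2 (by norm_num) (by norm_num)) ?_ (fun V H K h1 h2 => hX32 q hq V H K h1 h2)
  intro Λ hΛ _
  have hk : kap 2 (2 + 1) = 3 / 4 := by
    unfold kap
    norm_num
  rw [hk] at hΛ
  refine ⟨2 * (Λ - 3 / 4), by linarith, (Λ - 3 / 4) / 2, by linarith,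
    fun ε hε hεε V _ _ H hU hC hd _ => ?_⟩
  have h := many4 H
  have h2 : 2 * (Λ - 3 / 4) ≤ 4 * den 3 H - 3 := by linarith
  have h3 := (mul_le_mul_of_nonneg_right h2
    (show (0 : ℝ) ≤ (Fintype.card V : ℝ) ^ 4 by positivity)).trans h
  rw [Fintype.card_fin]
  refine h3.trans (le_of_eq ?_)
  rw [card_inst]

end Pool.Agent.N594.CT
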