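import Pool.Agent.N594.CT.Asm
import Pool.Agent.N594.CT.Fin
import Pool.Agent.N594.CT.T32
import Pool.Agent.N527.CT.CL
import Pool.Agent.N507.CT.XC
import Pool.Agent.N738.CT.VAR
import Pool.Agent.N441.CT.KK
import Pool.Agent.N40.CT.BB
import Pool.Agent.N40.CT.AV
import Pool.Agent.N861.CT.NC
import Pool.Agent.N945.CT.REG
import Pool.Agent.N570.CT.BA
import Pool.Agent.N75.CT.CLN
import Pool.Agent.N123.CT.GS
import Pool.Agent.N814.CT.X32
import Pool.Agent.N545.CT.SUB
import Pool.Agent.N481.CT.XA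
import Pool.Agent.N749.CT.W

/-!
# Turán's problem with larger independent sets: the density theorems
-/

set_option autoImplicit false

namespace Pool.Agent.N594.CT

theorem hW : S_W := Pool.Agent.N749.CT.W.main
theorem hBA : S_BA := Pool.Agent.N570.CT.BA.main hW

/-- The density theorem for all `t, k ≥ 2` and large `q`. -/
theorem dens_all {t k : ℕ} (ht : 2 ≤ t) (hk : 2 ≤ k) : ∃ q0 : ℕ, ∀ q : ℕ, q0 ≤ q → SA t k q :=
  dens (Pool.Agent.N123.CT.GS.main Pool.Agent.N738.CT.VAR.main) Pool.Agent.N861.CT.NC.main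
    (Pool.Agent.N527.CT.CL.main hW) Pool.Agent.N40.CT.AV.main Pool.Agent.N441.CT.KK.main
    Pool.Agent.N945.CT.REG.main Pool.Agent.N75.CT.CLN.main Pool.Agent.N545.CT.SUB.main
    Pool.Agent.N481.CT.XA.main (Pool.Agent.N507.CT.XC.main hW) hBA
    (Pool.Agent.N40.CT.BB.main hBA) ht hk

/-- The density theorem for `t = 3`, `k = 2`. -/
theorem dens_32 {q : ℕ} (hq : q = 6 ∨ 8 ≤ q) : SA 3 2 q :=
  sa32 Pool.Agent.N945.CT.REG.main Pool.Agent.N75.CT.CLN.main Pool.Agent.N545.CT.SUB.main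
    Pool.Agent.N481.CT.XA.main (Pool.Agent.N814.CT.X32.main hW) hBA hq

end Pool.Agent.N594.CT
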