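import Pool.Agent.N594.CT.Stm2

/-!
# Uniformity three, two parts, all `q ≥ 4`: statements of the parts
-/

set_option autoImplicit false

open Finset
open scoped Classical

namespace Pool.Agent.N594.CT

/-- CT/WT: a weighted form of Mantel's theorem. -/
def S_WT : Prop := ∀ (V : Type) [Fintype V] (f : V → V → ℕ) (A : ℕ), 2 ≤ A →
  (∀ u v, f u v = f v u) → (∀ v, A ≤ f v v) →
  (∀ u v w, (A ≤ f u v ∨ A ≤ f v w ∨ A ≤ f u w) ∨
    (A - 1 ≤ f u v ∧ A - 1 ≤ f v w ∧ A - 1 ≤ f u w)) →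
  A * Fintype.card V ^ 2 ≤ 2 * ∑ u, ∑ v, f u v

/-- CT/Y4: the degrees of a complete 3-graph on four vertices. -/
def S_Y4 : Prop := ∀ q : ℕ, q = 4 ∨ 6 ≤ q → ∀ (V : Type) [Fintype V] [Nonempty V]
  (H : Finset V → Prop) (K : Fin 4 → V), Unif 3 H → Cls 3 2 q H →
  (∀ e : Finset (Fin 4), e.card = 3 → H (e.image K)) →
  ∑ i, dg 2 H (K i) ≤ kap 2 3 * Fintype.card (Fin 4)

/-- CT/Y6: the degrees of six vertices without four independent ones. -/
def S_Y6 : Prop := ∀ (V : Type) [Fintype V] [Nonempty V]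
  (H : Finset V → Prop) (K : Fin 6 → V), Unif 3 H → Cls 3 2 5 H →
  (∀ J : Finset (Fin 6), J.card = 4 → ∃ e ⊆ J, e.card = 3 ∧ H (e.image K)) →
  ∑ i, dg 2 H (K i) ≤ kap 2 3 * Fintype.card (Fin 6)

/-- CT/P6: many sequences of six vertices without four independent ones. -/
def S_P6 : Prop := S_TR → SA 3 2 4 → ∀ Λ : ℝ, 3 / 4 < Λ → ∃ c : ℝ, 0 < c ∧ ∃ N : ℕ,
  ∀ (V : Type) [Fintype V] [Nonempty V] (H : Finset V → Prop), Unif 3 H → N ≤ Fintype.card V →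
  Λ ≤ den 3 H → c * (Fintype.card V : ℝ) ^ 6 ≤
    ((univ.filter fun K : Fin 6 → V => ∀ J : Finset (Fin 6), J.card = 4 →
      ∃ e ⊆ J, e.card = 3 ∧ H (e.image K)).card : ℝ)

end Pool.Agent.N594.CT
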