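import Pool.Agent.N594.CT.T32
import Pool.Agent.N594.CT.Stm3

/-!
# Uniformity three, two parts, all `q ≥ 4`
-/

set_option autoImplicit false

open Finset
open scoped Classical

namespace Pool.Agent.N594.CT

/-- **The extremal argument, second form.** If nearly extremal graphs of the class with many
vertices have many configurations of small average degree, then the density is at most `kap`. -/
theorem supC (hREG : S_REG) (hCLN : S_CLN) (hSUB : S_SUB) {l k q : ℕ}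
    (ι : Type) [Fintype ι] [Nonempty ι]
    (P : ∀ V : Type, (Finset V → Prop) → (ι → V) → Prop)
    (hpos : ∀ Λ : ℝ, kap k (l + 1) < Λ → Λ ≤ 1 → ∃ c : ℝ, 0 < c ∧ ∃ ε' : ℝ, 0 < ε' ∧ ∃ N0 : ℕ,
      ∀ (ε : ℝ), 0 < ε → ε ≤ ε' → ∀ (V : Type) [Fintype V] [Nonempty V] (H : Finset V → Prop),
      Unif (l + 1) H → Cls (l + 1) k q H → N0 ≤ Fintype.card V → Λ - ε ≤ den (l + 1) H →
      ((univ.filter fun w : V => dg l H w ≤ Λ - ε).card : ℝ) ≤ ε * Fintype.card V →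
      c * (Fintype.card V : ℝ) ^ Fintype.card ι ≤ ((univ.filter fun K : ι → V => P V H K).card : ℝ))
    (hsum : ∀ (V : Type) [Fintype V] [Nonempty V] (H : Finset V → Prop) (K : ι → V),
      Unif (l + 1) H → Cls (l + 1) k q H → P V H K →
      ∑ i, dg l H (K i) ≤ kap k (l + 1) * Fintype.card ι) :
    SA (l + 1) k q := by
  intro V0 _ _ H0 hU0 hC0
  by_contra hcon
  push Not at hcon
  have hbdd : BddAbove (Dens (l + 1) k q) := by
    refine ⟨1, ?_⟩
    rintro x ⟨V, _, _, H, -, -, rfl⟩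
    exact den_le_one _ H
  have hne : (Dens (l + 1) k q).Nonempty := ⟨den (l + 1) H0, V0, _, ‹_›, H0, hU0, hC0, rfl⟩
  obtain ⟨Λ, hΛ⟩ : ∃ Λ : ℝ, Λ = sSup (Dens (l + 1) k q) := ⟨_, rfl⟩
  have hle : ∀ (U : Type) [Fintype U] [Nonempty U] (G : Finset U → Prop), Unif (l + 1) G →
      Cls (l + 1) k q G → den (l + 1) G ≤ Λ := by
    intro U _ _ G h1 h2
    rw [hΛ]
    exact le_csSup hbdd ⟨U, _, ‹_›, G, h1, h2, rfl⟩
  have hΛ0 : kap k (l + 1) < Λ := hcon.trans_le (hle V0 H0 hU0 hC0)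
  have hΛ1 : Λ ≤ 1 := by
    rw [hΛ]
    exact csSup_le hne (by rintro x ⟨V, _, _, H, -, -, rfl⟩; exact den_le_one _ H)
  obtain ⟨c, hc, ε', hε', N0, hP⟩ := hpos Λ hΛ0 hΛ1
  set N : ℕ := Fintype.card ι with hN
  have hN1 : 0 < N := Fintype.card_pos
  have hNR : (0 : ℝ) < N := by exact_mod_cast hN1
  obtain ⟨ε, hε⟩ : ∃ ε : ℝ, ε = min (min ε' ((Λ - kap k (l + 1)) / 2)) (min 1 (c / (2 * N))) :=
    ⟨_, rfl⟩
  have hε0 : 0 < ε := by
    rw [hε]
    refine lt_min (lt_min hε' ?_) (lt_min one_pos (by positivity))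
    linarith
  have hεa : ε ≤ ε' := by rw [hε]; exact (min_le_left _ _).trans (min_le_left _ _)
  have hεb : ε ≤ (Λ - kap k (l + 1)) / 2 := by
    rw [hε]; exact (min_le_left _ _).trans (min_le_right _ _)
  have hεc : ε ≤ 1 := by rw [hε]; exact (min_le_right _ _).trans (min_le_left _ _)
  have hεd : ε ≤ c / (2 * N) := by rw [hε]; exact (min_le_right _ _).trans (min_le_right _ _)
  have hlt : Λ - ε ^ 2 / 8 < sSup (Dens (l + 1) k q) := by
    rw [← hΛ]
    have : 0 < ε ^ 2 / 8 := by positivity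
    linarith
  obtain ⟨_, ⟨V, _, _, H, hU, hC, rfl⟩, hd⟩ := exists_lt_of_lt_csSup hne hlt
  -- the blow-up
  obtain ⟨V2, _, _, H2, hU2, hC2, hd2, -, hcard0⟩ := big hCLN (by omega) hU hC
    (2 * ((l : ℝ) + 1) / ε + N0) (by positivity)
  have hcard : 2 * ((l : ℝ) + 1) / ε ≤ Fintype.card V2 := by
    have : (0 : ℝ) ≤ N0 := Nat.cast_nonneg _
    linarith
  have hcN : N0 ≤ Fintype.card V2 := by
    have h1 : (0 : ℝ) < 2 * ((l : ℝ) + 1) / ε := by positivity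
    have h2 : (N0 : ℝ) ≤ Fintype.card V2 := by linarith
    exact_mod_cast h2
  have hd3 : Λ - ε ^ 2 / 8 ≤ den (l + 1) H2 := by rw [hd2]; exact hd.le
  have hreg := hREG V2 H2 l Λ ε hε0 hεc hΛ1 hcard
    (fun W hW => hSUB _ H2 (l + 1) k q W Λ hW hU2 hC2 hle) hd3
  have hd4 : Λ - ε ≤ den (l + 1) H2 := by
    have h1 : ε * ε ≤ ε * 1 := mul_le_mul_of_nonneg_left hεc hε0.le
    have h2 : ε ^ 2 = ε * ε := by ring
    linarith
  have hmany := hP ε hε0 hεa V2 H2 hU2 hC2 hcN hd4 hreg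
  -- a configuration of vertices of large degree
  set n : ℕ := Fintype.card V2 with hn
  have hn0 : 0 < n := Fintype.card_pos
  have hnR : (0 : ℝ) < n := by exact_mod_cast hn0
  set B : Finset V2 := univ.filter fun w => dg l H2 w ≤ Λ - ε with hB
  have hex : ∃ K : ι → V2, P _ H2 K ∧ ∀ i, K i ∉ B := by
    by_contra hno
    push Not at hno
    have h1 : (univ.filter fun K : ι → V2 => P _ H2 K) ⊆
        univ.filter fun K : ι → V2 => ∃ i, K i ∈ B := fun K hK =>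
      mem_filter.mpr ⟨mem_univ _, hno K (mem_filter.mp hK).2⟩
    have h2 : ((univ.filter fun K : ι → V2 => P _ H2 K).card : ℝ) * n ≤
        N * (B.card : ℝ) * (n : ℝ) ^ N := by
      have := (Nat.mul_le_mul_right n (card_le_card h1)).trans (hit_card (ι := ι) B)
      exact_mod_cast this
    have h3 : N * (B.card : ℝ) * (n : ℝ) ^ N ≤ c / 2 * n * (n : ℝ) ^ N := by
      refine mul_le_mul_of_nonneg_right ?_ (by positivity)
      have h5 : (N : ℝ) * (B.card : ℝ) ≤ N * (c / (2 * N) * n) :=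
        mul_le_mul_of_nonneg_left (hreg.trans (mul_le_mul_of_nonneg_right hεd hnR.le)) hNR.le
      refine h5.trans (le_of_eq ?_)
      field_simp
    have h4 : c * (n : ℝ) ^ N * n ≤ c / 2 * n * (n : ℝ) ^ N :=
      (mul_le_mul_of_nonneg_right hmany hnR.le).trans (h2.trans h3)
    have h6 : 0 < c * (n : ℝ) ^ N * n := by positivity
    have h7 : c / 2 * n * (n : ℝ) ^ N = c * (n : ℝ) ^ N * n / 2 := by ring
    linarith
  obtain ⟨K, hK, hKB⟩ := hex
  have hsum := hsum _ H2 K hU2 hC2 hK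
  have hbig : ∀ i, Λ - ε < dg l H2 (K i) := by
    intro i
    have := hKB i
    rw [hB, mem_filter, not_and, not_le] at this
    exact this (mem_univ _)
  have h8 : (Λ - ε) * N ≤ ∑ i, dg l H2 (K i) := by
    have : ∑ _i : ι, (Λ - ε) ≤ ∑ i, dg l H2 (K i) := sum_le_sum fun i _ => (hbig i).le
    rw [sum_const, card_univ, nsmul_eq_mul, mul_comm] at this
    exact this
  have h9 : (Λ - ε) * N ≤ kap k (l + 1) * N := h8.trans hsum
  have h10 : Λ - ε ≤ kap k (l + 1) := le_of_mul_le_mul_right h9 hNR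
  linarith


theorem kap23 : kap 2 (2 + 1) = 3 / 4 := by
  unfold kap
  norm_num

/-- `q = 4` and `q ≥ 6` -/
theorem sa32a (hREG : S_REG) (hCLN : S_CLN) (hSUB : S_SUB) (hY4 : S_Y4) {q : ℕ}
    (hq : q = 4 ∨ 6 ≤ q) : SA 3 2 q := by
  refine supC hREG hCLN hSUB (l := 2) (k := 2) (Fin 4)
    (fun V H K => ∀ e : Finset (Fin 4), e.card = 3 → H (e.image K)) ?_
    (fun V _ _ H K h1 h2 h3 => hY4 q hq V H K h1 h2 h3)
  intro Λ hΛ _
  rw [kap23] at hΛ
  refine ⟨2 * (Λ - 3 / 4), by linarith, (Λ - 3 / 4) / 2, by linarith, 0,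
    fun ε hε hεε V _ _ H hU hC _ hd _ => ?_⟩
  have h := many4 H
  have h2 : 2 * (Λ - 3 / 4) ≤ 4 * den 3 H - 3 := by linarith
  have h3 := (mul_le_mul_of_nonneg_right h2
    (show (0 : ℝ) ≤ (Fintype.card V : ℝ) ^ 4 by positivity)).trans h
  rw [Fintype.card_fin]
  refine h3.trans (le_of_eq ?_)
  rw [card_inst]

/-- `q = 5` -/
theorem sa325 (hREG : S_REG) (hCLN : S_CLN) (hSUB : S_SUB) (hY4 : S_Y4) (hY6 : S_Y6)
    (hP6 : S_P6) (hTR : S_TR) : SA 3 2 5 := by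
  refine supC hREG hCLN hSUB (l := 2) (k := 2) (Fin 6)
    (fun V H K => ∀ J : Finset (Fin 6), J.card = 4 → ∃ e ⊆ J, e.card = 3 ∧ H (e.image K)) ?_
    (fun V _ _ H K h1 h2 h3 => hY6 V H K h1 h2 h3)
  intro Λ hΛ _
  rw [kap23] at hΛ
  obtain ⟨c, hc, N, hN⟩ := hP6 hTR (sa32a hREG hCLN hSUB hY4 (Or.inl rfl)) ((Λ + 3 / 4) / 2)
    (by linarith)
  refine ⟨c, hc, (Λ - 3 / 4) / 2, by linarith, N,
    fun ε hε hεε V _ _ H hU hC hNV hd _ => ?_⟩
  have h := hN V H hU hNV (by linarith)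
  rw [Fintype.card_fin]
  refine h.trans (le_of_eq ?_)
  rw [card_inst]

/-- all `q ≥ 4` -/
theorem sa32all (hREG : S_REG) (hCLN : S_CLN) (hSUB : S_SUB) (hY4 : S_Y4) (hY6 : S_Y6)
    (hP6 : S_P6) (hTR : S_TR) {q : ℕ} (hq : 4 ≤ q) : SA 3 2 q := by
  by_cases h : q = 5
  · rw [h]
    exact sa325 hREG hCLN hSUB hY4 hY6 hP6 hTR
  · exact sa32a hREG hCLN hSUB hY4 (by omega)

end Pool.Agent.N594.CT
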