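import Pool.Agent.N594.CT.Stm

/-!
# Turán's problem with larger independent sets: statements of the last parts

From the density theorem `SA s k t` to `t`-graphs `G` without a complete subgraph on
`m = k (t - 1) + 1` vertices and their `s`-sets of almost full degree.
-/

set_option autoImplicit false

open Finset
open scoped Classical

namespace Pool.Agent.N594.CT

/-- Every set of `m` vertices contains a `t`-set which is not an edge. -/
def KFree (t m : ℕ) {n : ℕ} (G : Finset (Finset (Fin n))) : Prop :=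
  ∀ S : Finset (Fin n), S.card = m → ∃ e ⊆ S, e.card = t ∧ e ∉ G

/-- The degree of a set of vertices. -/
def degr {n : ℕ} (G : Finset (Finset (Fin n))) (X : Finset (Fin n)) : ℕ :=
  (G.filter fun e => X ⊆ e).card

/-- The `s`-sets of degree at least `(1 - ε) C(n - s, t - s)`. -/
noncomputable def full (s t : ℕ) (ε : ℝ) {n : ℕ} (G : Finset (Finset (Fin n))) :
    Finset (Finset (Fin n)) :=
  (univ.powersetCard s).filter fun X => (1 - ε) * ((n - s).choose (t - s) : ℝ) ≤ (degr G X : ℝ)

/-- The sequences of `m` different vertices without an independent set of `t` of them. -/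
noncomputable def badm (t m : ℕ) {n : ℕ} (D : Finset (Finset (Fin n))) : Finset (Fin m → Fin n) :=
  univ.filter fun φ => Function.Injective φ ∧
    ∀ J : Finset (Fin m), J.card = t → ∃ X ⊆ J, X.image φ ∈ D

/-- CT/TR: the transfer if there are few bad sequences. -/
def S_TR : Prop := ∀ s k t : ℕ, 1 ≤ s → 1 ≤ k → SA s k t → ∀ η : ℝ, 0 < η → ∃ δ : ℝ, 0 < δ ∧
  ∃ N : ℕ, ∀ n : ℕ, N ≤ n → ∀ D : Finset (Finset (Fin n)), (∀ e ∈ D, e.card = s) →
  ((badm t (k * (t - 1) + 1) D).card : ℝ) ≤ δ * (n : ℝ) ^ (k * (t - 1) + 1) →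
  (D.card : ℝ) ≤ (1 - 1 / (k : ℝ) ^ (s - 1) + η) * (n.choose s : ℝ)

/-- CT/FD: few bad sequences for the sets of almost full degree. -/
def S_FD : Prop := ∀ (s t m n : ℕ) (ε : ℝ) (G : Finset (Finset (Fin n))), s ≤ t → 0 ≤ ε →
  (∀ e ∈ G, e.card = t) → KFree t m G →
  ((badm t m (full s t ε G)).card : ℝ) ≤ 4 ^ m * ε * (n : ℝ) ^ m

end Pool.Agent.N594.CT
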