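import Pool.Agent.N594.CT.Fin
import Pool.Agent.N594.CT.Stm2
import Pool.Agent.N424.CT.FD
import Pool.Agent.N442.ES.Cons

/-!
# Norms of the degrees of `s`-sets, and Turán's construction
-/

set_option autoImplicit false

open Finset
open scoped Classical

namespace Pool.Agent.N594.CT

open Pool.Agent.N442.ES

/-- the sum of the `p`-th powers of the normalised degrees of the `s`-sets -/
noncomputable def nsum (s t : ℕ) (p : ℝ) {n : ℕ} (G : Finset (Finset (Fin n))) : ℝ :=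
  ∑ X ∈ (univ : Finset (Fin n)).powersetCard s,
    ((degr G X : ℝ) / ((n - s).choose (t - s) : ℝ)) ^ p

theorem degr_le {n t : ℕ} {G : Finset (Finset (Fin n))} (hG : ∀ e ∈ G, e.card = t)
    {X : Finset (Fin n)} (h : X.card ≤ t) : degr G X ≤ (n - X.card).choose (t - X.card) := by
  rw [← Pool.Agent.N424.CT.FD.card_super t X h]
  refine card_le_card fun e he => ?_
  obtain ⟨h1, h2⟩ := mem_filter.mp he
  exact mem_filter.mpr ⟨mem_powersetCard.mpr ⟨subset_univ _, hG e h1⟩, h2⟩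

/-- **The upper bound for large `p`.** -/
theorem nsum_upper (hTR : S_TR) {s k t : ℕ} (hs : 1 ≤ s) (hk : 1 ≤ k) (hst : s ≤ t)
    (hA : SA s k t) {η : ℝ} (hη : 0 < η) : ∃ p0 : ℝ, 1 ≤ p0 ∧ ∃ N : ℕ, ∀ p : ℝ, p0 ≤ p → ∀ n : ℕ,
      N ≤ n → ∀ G : Finset (Finset (Fin n)), (∀ e ∈ G, e.card = t) →
      KFree t (k * (t - 1) + 1) G →
      nsum s t p G ≤ (1 - 1 / (k : ℝ) ^ (s - 1) + η) * (n.choose s : ℝ) := by
  obtain ⟨δ, hδ, N, hN⟩ := hTR s k t hs hk hA (η / 2) (by positivity)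
  set m : ℕ := k * (t - 1) + 1 with hm
  obtain ⟨ε, hε⟩ : ∃ ε : ℝ, ε = min (δ / 4 ^ m) (1 / 2) := ⟨_, rfl⟩
  have hε0 : 0 < ε := by rw [hε]; positivity
  have hε1 : ε ≤ 1 / 2 := by rw [hε]; exact min_le_right _ _
  have hεδ : 4 ^ m * ε ≤ δ := by
    have h : ε ≤ δ / 4 ^ m := by rw [hε]; exact min_le_left _ _
    rw [le_div_iff₀ (by positivity)] at h
    linarith
  obtain ⟨P, hP⟩ := exists_pow_lt_of_lt_one (show (0 : ℝ) < η / 2 by positivity)
    (show 1 - ε < 1 by linarith)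
  refine ⟨max 1 P, le_max_left _ _, max N t, fun p hp n hn G hG hK => ?_⟩
  have hp1 : 1 ≤ p := (le_max_left _ _).trans hp
  have hpP : (P : ℝ) ≤ p := (le_max_right _ _).trans hp
  have hnt : t ≤ n := (le_max_right _ _).trans hn
  set C : ℝ := ((n - s).choose (t - s) : ℝ) with hC
  have hC0 : 0 < C := by
    rw [hC]
    exact_mod_cast Nat.choose_pos (by omega)
  have hD := hN n ((le_max_left _ _).trans hn) (full s t ε G)
    (fun e he => (mem_powersetCard.mp (mem_filter.mp he).1).2)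
    ((Pool.Agent.N424.CT.FD.main s t m n ε G hst hε0.le hG hK).trans
      (mul_le_mul_of_nonneg_right hεδ (by positivity)))
  have hterm : ∀ X ∈ (univ : Finset (Fin n)).powersetCard s,
      ((degr G X : ℝ) / C) ^ p ≤ (if X ∈ full s t ε G then 1 else 0) + η / 2 := by
    intro X hX
    have hXs := (mem_powersetCard.mp hX).2
    have h0 : (0 : ℝ) ≤ (degr G X : ℝ) / C := by positivity
    by_cases hf : X ∈ full s t ε G
    · rw [if_pos hf]
      have h1 : (degr G X : ℝ) / C ≤ 1 := by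
        rw [div_le_one hC0, hC]
        have := degr_le hG (X := X) (by omega)
        rw [hXs] at this
        exact_mod_cast this
      have h2 := Real.rpow_le_one h0 h1 (by linarith : (0 : ℝ) ≤ p)
      linarith
    · rw [if_neg hf, zero_add]
      have h1 : (degr G X : ℝ) / C ≤ 1 - ε := by
        rw [div_le_iff₀ hC0]
        by_contra hcon
        push Not at hcon
        exact hf (mem_filter.mpr ⟨hX, hcon.le⟩)
      have h2 : ((degr G X : ℝ) / C) ^ p ≤ (1 - ε) ^ p :=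
        Real.rpow_le_rpow h0 h1 (by linarith)
      have h3 : (1 - ε) ^ p ≤ (1 - ε) ^ (P : ℝ) :=
        Real.rpow_le_rpow_of_exponent_ge (by linarith) (by linarith) hpP
      rw [Real.rpow_natCast] at h3
      linarith
  have hsum := sum_le_sum hterm
  rw [sum_add_distrib, sum_const, card_powersetCard, card_univ, Fintype.card_fin,
    nsmul_eq_mul] at hsum
  have h1 : (∑ X ∈ (univ : Finset (Fin n)).powersetCard s,
      (if X ∈ full s t ε G then (1 : ℝ) else 0)) ≤ ((full s t ε G).card : ℝ) := by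
    rw [sum_ite_mem, sum_const, nsmul_eq_mul, mul_one]
    exact_mod_cast card_le_card inter_subset_right
  unfold nsum
  rw [← hC]
  have hn0 : (0 : ℝ) ≤ (n.choose s : ℝ) := Nat.cast_nonneg _
  nlinarith [hsum, h1, hD]

/-- a set with many elements has many elements in a residue class -/
theorem pigeon {k q n : ℕ} (hk : 1 ≤ k) (hq : 1 ≤ q) {S : Finset (Fin n)}
    (hS : S.card = k * (q - 1) + 1) : ∃ J ⊆ S, J.card = q ∧ ∀ x ∈ J, ∀ y ∈ J, cm k x = cm k y := by
  have h1 : (range k).card * (q - 1) < S.card := by rw [card_range, hS]; omega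
  obtain ⟨j, -, hj⟩ := exists_lt_card_fiber_of_mul_lt_card_of_maps_to
    (s := S) (t := range k) (f := fun v => cm k v)
    (fun v _ => mem_coe.mpr (mem_range.mpr (Nat.mod_lt _ (by omega)))) h1
  obtain ⟨J, hJ, hJc⟩ := exists_subset_card_eq (show q ≤ (S.filter fun v => cm k v = j).card by omega)
  refine ⟨J, fun v hv => (mem_filter.mp (hJ hv)).1, hJc, fun x hx y hy => ?_⟩
  exact (mem_filter.mp (hJ hx)).2.trans (mem_filter.mp (hJ hy)).2.symm

/-- Turán's construction has the local property. -/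
theorem TC_local {s k q n : ℕ} (hk : 1 ≤ k) (hq : 1 ≤ q) :
    Local (k * (q - 1) + 1) q (TC s (cm k : Fin n → ℕ)) := by
  intro S hS
  obtain ⟨J, hJ, hJc, hJe⟩ := pigeon hk hq hS
  refine ⟨J, hJ, hJc, fun e he hsub => ?_⟩
  obtain ⟨x, hx, y, hy, hxy⟩ := (mem_filter.mp he).2
  exact hxy (hJe x (hsub hx) y (hsub hy))

/-- Turán's construction has no complete subgraph. -/
theorem TC_kfree {k q n : ℕ} (hk : 1 ≤ k) (hq : 1 ≤ q) :
    KFree q (k * (q - 1) + 1) (TC q (cm k : Fin n → ℕ)) := by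
  intro S hS
  obtain ⟨J, hJ, hJc, hJe⟩ := pigeon hk hq hS
  refine ⟨J, hJ, hJc, fun he => ?_⟩
  obtain ⟨x, hx, y, hy, hxy⟩ := (mem_filter.mp he).2
  exact hxy (hJe x hx y hy)

/-- **The lower bound for all `p`.** -/
theorem nsum_lower {d k t : ℕ} (hk : 1 ≤ k) (hst : d + 2 ≤ t) {η : ℝ} (hη : 0 < η) :
    ∃ N : ℕ, ∀ n : ℕ, N ≤ n → ∀ p : ℝ,
      (1 - 1 / (k : ℝ) ^ (d + 1) - η) * (n.choose (d + 2) : ℝ) ≤
        nsum (d + 2) t p (TC t (cm k : Fin n → ℕ)) := by
  obtain ⟨N, hN⟩ := TC_lower d k hk hη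
  refine ⟨max N t, fun n hn p => (hN n ((le_max_left _ _).trans hn)).trans ?_⟩
  have hnt : t ≤ n := (le_max_right _ _).trans hn
  have hC0 : (0 : ℝ) < ((n - (d + 2)).choose (t - (d + 2)) : ℝ) := by
    exact_mod_cast Nat.choose_pos (by omega)
  have h1 : ∀ X ∈ TC (d + 2) (cm k : Fin n → ℕ),
      ((degr (TC t (cm k : Fin n → ℕ)) X : ℝ) / ((n - (d + 2)).choose (t - (d + 2)) : ℝ)) ^ p = 1 := by
    intro X hX
    obtain ⟨hX1, x, hx, y, hy, hxy⟩ := mem_filter.mp hX
    have hXc := (mem_powersetCard.mp hX1).2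
    have h2 : degr (TC t (cm k : Fin n → ℕ)) X = (n - (d + 2)).choose (t - (d + 2)) := by
      rw [← hXc, ← Pool.Agent.N424.CT.FD.card_super t X (by omega)]
      unfold degr
      congr 1
      ext e
      simp only [mem_filter, TC]
      constructor
      · rintro ⟨⟨h1, -⟩, h2⟩
        exact ⟨h1, h2⟩
      · rintro ⟨h1, h2⟩
        exact ⟨⟨h1, x, h2 hx, y, h2 hy, hxy⟩, h2⟩
    rw [h2, div_self hC0.ne', Real.one_rpow]
  unfold nsum
  have h3 : ((TC (d + 2) (cm k : Fin n → ℕ)).card : ℝ) = ∑ X ∈ TC (d + 2) (cm k : Fin n → ℕ),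
      ((degr (TC t (cm k : Fin n → ℕ)) X : ℝ) / ((n - (d + 2)).choose (t - (d + 2)) : ℝ)) ^ p := by
    rw [sum_congr rfl h1, sum_const, nsmul_eq_mul, mul_one]
  rw [h3]
  refine sum_le_sum_of_subset_of_nonneg (filter_subset _ _) fun X _ _ => ?_
  positivity

end Pool.Agent.N594.CT
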