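import Pool.Agent.N594.CT.All
import Pool.Agent.N594.CT.Asm2
import Pool.Agent.N594.CT.Norm
import Pool.Agent.N530.CT.WT
import Pool.Agent.N490.CT.P6
import Pool.Agent.N456.CT.Y4
import Pool.Agent.N50.CT.TR
import Pool.Agent.N415.CT.Y6

/-!
# Turán's problem with larger independent sets: all parts together
-/

set_option autoImplicit false

open Finset
open scoped Classical

namespace Pool.Agent.N594.CT

open Pool.Agent.N442.ES

/-- Uniformity three, two parts, all `q ≥ 4`. -/
theorem dens_three {q : ℕ} (hq : 4 ≤ q) : SA 3 2 q :=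
  sa32all Pool.Agent.N945.CT.REG.main Pool.Agent.N75.CT.CLN.main Pool.Agent.N545.CT.SUB.main
    (Pool.Agent.N456.CT.Y4.main hW Pool.Agent.N530.CT.WT.main)
    (Pool.Agent.N415.CT.Y6.main hW Pool.Agent.N530.CT.WT.main) Pool.Agent.N490.CT.P6.main
    Pool.Agent.N50.CT.TR.main hq

end Pool.Agent.N594.CT
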