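import Pool.Agent.N594.CT.Stm3

/-!
# Turán's problem with larger independent sets: arbitrary numbers `m` of vertices
-/

set_option autoImplicit false

open Finset
open scoped Classical

namespace Pool.Agent.N594.CT

/-- Every sequence of `m` vertices has an independent set of `q` indices. (`Cls t k q` is
`ClsM t (k (q - 1) + 1) q`.) -/
def ClsM (t m q : ℕ) {V : Type} (H : Finset V → Prop) : Prop :=
  ∀ σ : Fin m → V, ∃ J : Finset (Fin m), J.card = q ∧ Ind t H σ J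

/-- The density theorem for given parameters. -/
def SAM (t k m q : ℕ) : Prop :=
  ∀ (V : Type) [Fintype V] [Nonempty V] (H : Finset V → Prop), Unif t H → ClsM t m q H →
    den t H ≤ kap k t

/-- Many configurations `WC` if the density is almost extremal. -/
def SBM (t k m q r : ℕ) (ε c : ℝ) : Prop :=
  ∀ (V : Type) [Fintype V] [Nonempty V] (H : Finset V → Prop), Unif t H → ClsM t m q H →
    kap k t - ε ≤ den t H → c ≤ pw t k r H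

/-- The induction statement. -/
def GoodM (t k m q r : ℕ) : Prop := SAM t k m q ∧ ∃ ε : ℝ, 0 < ε ∧ ∃ c : ℝ, 0 < c ∧ SBM t k m q r ε c

/-- CT/WM -/
def S_WM : Prop := ∀ (t m q : ℕ) (V : Type) (H : Finset V → Prop), ClsM t m q H →
  ∀ (ι : Type) [Fintype ι] (ρ : ι → V) (c : ι → ℕ), ∑ i, c i = m →
    ∃ I : Finset ι, Ind t H ρ I ∧ q ≤ ∑ i ∈ I, c i

/-- CT/CLNM -/
def S_CLNM : Prop := ∀ (V : Type) [Fintype V] [Nonempty V] (H : Finset V → Prop) (t m q N : ℕ),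
  1 ≤ N → 1 ≤ t → Unif t H → ClsM t m q H →
  ∃ H2 : Finset (V × Fin N) → Prop, Unif t H2 ∧ ClsM t m q H2 ∧ den t H2 = den t H ∧
    ∀ k r : ℕ, pw t k r H2 = pw t k r H

/-- CT/SUBM -/
def S_SUBM : Prop := ∀ (V : Type) [Fintype V] [Nonempty V] (H : Finset V → Prop) (t m q : ℕ)
  (W : Finset V) (Λ : ℝ), W.Nonempty → Unif t H → ClsM t m q H →
  (∀ (U : Type) [Fintype U] [Nonempty U] (G : Finset U → Prop), Unif t G → ClsM t m q G →
    den t G ≤ Λ) →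
  ((univ.filter fun x : Fin t → V => (∀ i, x i ∈ W) ∧ H (univ.image x)).card : ℝ) ≤
    Λ * (W.card : ℝ) ^ t

/-- CT/CLM: the derived graph of a sample without large independent sets is in the class. -/
def S_CLM : Prop := ∀ (l k q' s : ℕ) (δ : ℝ), 1 ≤ l → 1 ≤ k → 1 ≤ q' → 0 < s → 0 < δ →
  8 * (k : ℝ) ^ 2 * ((k * (q' - 1) + 1 : ℕ) : ℝ) * δ ≤ 1 → ∃ c : ℝ, 0 < c ∧ ∃ q0 : ℕ,
  ∀ q : ℕ, q0 ≤ q → ∀ m : ℕ, k * (q - 1) + 1 ≤ m → (m : ℝ) ≤ (k + c) * q →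
  ∀ (V : Type) (H : Finset V → Prop) (S : Fin s → V), ClsM (l + 1) m q H →
  (∀ J : Finset (Fin s), Ind (l + 1) H S J → (J.card : ℝ) ≤ (1 / k + δ) * s) →
  Cls l k q' (der l H S ((1 - 1 / k + 4 * k * ((k * (q' - 1) + 1 : ℕ) : ℝ) * δ) * s))

/-- CT/XCM: the derived graph of a configuration `WC` is in the class. -/
def S_XCM : Prop := ∀ l k q' r : ℕ, 1 ≤ l → 1 ≤ k → 1 ≤ q' → l + 1 ≤ r → ∃ c : ℝ, 0 < c ∧
  ∃ q0 : ℕ, ∀ q : ℕ, q0 ≤ q → ∀ m : ℕ, k * (q - 1) + 1 ≤ m → (m : ℝ) ≤ (k + c) * q →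
  ∀ (V : Type) (H : Finset V → Prop) (K : Fin k × Fin r → V), ClsM (l + 1) m q H →
  WC (l + 1) k r H K → Cls l k q' (der l H K ((1 - 1 / k) * (Fintype.card (Fin k × Fin r) : ℝ)))

/-- CT/Y4M: the degrees of a complete 3-graph on four vertices. -/
def S_Y4M : Prop := ∀ q b : ℕ, 1 ≤ b →
  ((∃ a : ℕ, q = 2 * a + b + 1 ∧ 3 * b + 1 ≤ q) ∨ (∃ a : ℕ, q = 2 * a + b + 2 ∧ 3 * b + 3 ≤ q)) →
  ∀ (V : Type) [Fintype V] [Nonempty V]
  (H : Finset V → Prop) (K : Fin 4 → V), Unif 3 H → ClsM 3 (2 * (q - 1) + b) q H →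
  (∀ e : Finset (Fin 4), e.card = 3 → H (e.image K)) →
  ∑ i, dg 2 H (K i) ≤ kap 2 3 * Fintype.card (Fin 4)

/-- CT/TRM: the transfer if there are few bad sequences. -/
def S_TRM : Prop := ∀ s k m t : ℕ, 1 ≤ s → 1 ≤ k → 1 ≤ m → SAM s k m t → ∀ η : ℝ, 0 < η →
  ∃ δ : ℝ, 0 < δ ∧ ∃ N : ℕ, ∀ n : ℕ, N ≤ n → ∀ D : Finset (Finset (Fin n)),
  (∀ e ∈ D, e.card = s) → ((badm t m D).card : ℝ) ≤ δ * (n : ℝ) ^ m →
  (D.card : ℝ) ≤ (1 - 1 / (k : ℝ) ^ (s - 1) + η) * (n.choose s : ℝ)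

end Pool.Agent.N594.CT
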