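import Pool.Agent.N594.CT.Asm2
import Pool.Agent.N594.CT.Stm4

/-!
# Turán's problem with larger independent sets: arbitrary `m`, the induction
-/

set_option autoImplicit false

open Finset
open scoped Classical

namespace Pool.Agent.N594.CT

/-- blow-ups with many vertices -/
theorem bigM (hCLN : S_CLNM) {V : Type} [Fintype V] [Nonempty V] {H : Finset V → Prop} {t m q : ℕ}
    (ht : 1 ≤ t) (hU : Unif t H) (hC : ClsM t m q H) (C : ℝ) (hC0 : 0 < C) :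
    ∃ (V2 : Type) (_ : Fintype V2) (_ : Nonempty V2) (H2 : Finset V2 → Prop), Unif t H2 ∧
      ClsM t m q H2 ∧ den t H2 = den t H ∧ (∀ k r : ℕ, pw t k r H2 = pw t k r H) ∧
      C ≤ Fintype.card V2 := by
  obtain ⟨M, hM⟩ := exists_nat_gt C
  have hM1 : 1 ≤ M := by
    have h2 : (0 : ℝ) < M := hC0.trans hM
    exact_mod_cast h2
  have : Nonempty (Fin M) := ⟨⟨0, hM1⟩⟩
  obtain ⟨H2, hU2, hC2, hd2, hp2⟩ := hCLN V H t m q M hM1 ht hU hC
  refine ⟨V × Fin M, inferInstance, inferInstance, H2, hU2, hC2, hd2, hp2, ?_⟩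
  rw [Fintype.card_prod, Fintype.card_fin]
  have h1 : (1 : ℝ) ≤ Fintype.card V := by exact_mod_cast Fintype.card_pos (α := V)
  have h2 : (0 : ℝ) ≤ M := Nat.cast_nonneg M
  rw [Nat.cast_mul]
  exact hM.le.trans ((one_mul (M : ℝ)).symm.le.trans (mul_le_mul_of_nonneg_right h1 h2))

/-- the set of all densities in the class -/
def DensM (t m q : ℕ) : Set ℝ := {x | ∃ (V : Type) (_ : Fintype V) (_ : Nonempty V)
  (H : Finset V → Prop), Unif t H ∧ ClsM t m q H ∧ den t H = x}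

/-- **The extremal argument, second form.** If nearly extremal graphs of the class with many
vertices have many configurations of small average degree, then the density is at most `kap`. -/
theorem supM (hREG : S_REG) (hCLN : S_CLNM) (hSUB : S_SUBM) {l k m q : ℕ}
    (ι : Type) [Fintype ι] [Nonempty ι]
    (P : ∀ V : Type, (Finset V → Prop) → (ι → V) → Prop)
    (hpos : ∀ Λ : ℝ, kap k (l + 1) < Λ → Λ ≤ 1 → ∃ c : ℝ, 0 < c ∧ ∃ ε' : ℝ, 0 < ε' ∧ ∃ N0 : ℕ,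
      ∀ (ε : ℝ), 0 < ε → ε ≤ ε' → ∀ (V : Type) [Fintype V] [Nonempty V] (H : Finset V → Prop),
      Unif (l + 1) H → ClsM (l + 1) m q H → N0 ≤ Fintype.card V → Λ - ε ≤ den (l + 1) H →
      ((univ.filter fun w : V => dg l H w ≤ Λ - ε).card : ℝ) ≤ ε * Fintype.card V →
      c * (Fintype.card V : ℝ) ^ Fintype.card ι ≤ ((univ.filter fun K : ι → V => P V H K).card : ℝ))
    (hsum : ∀ (V : Type) [Fintype V] [Nonempty V] (H : Finset V → Prop) (K : ι → V),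
      Unif (l + 1) H → ClsM (l + 1) m q H → P V H K →
      ∑ i, dg l H (K i) ≤ kap k (l + 1) * Fintype.card ι) :
    SAM (l + 1) k m q := by
  intro V0 _ _ H0 hU0 hC0
  by_contra hcon
  push Not at hcon
  have hbdd : BddAbove (DensM (l + 1) m q) := by
    refine ⟨1, ?_⟩
    rintro x ⟨V, _, _, H, -, -, rfl⟩
    exact den_le_one _ H
  have hne : (DensM (l + 1) m q).Nonempty := ⟨den (l + 1) H0, V0, _, ‹_›, H0, hU0, hC0, rfl⟩
  obtain ⟨Λ, hΛ⟩ : ∃ Λ : ℝ, Λ = sSup (DensM (l + 1) m q) := ⟨_, rfl⟩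
  have hle : ∀ (U : Type) [Fintype U] [Nonempty U] (G : Finset U → Prop), Unif (l + 1) G →
      ClsM (l + 1) m q G → den (l + 1) G ≤ Λ := by
    intro U _ _ G h1 h2
    rw [hΛ]
    exact le_csSup hbdd ⟨U, _, ‹_›, G, h1, h2, rfl⟩
  have hΛ0 : kap k (l + 1) < Λ := hcon.trans_le (hle V0 H0 hU0 hC0)
  have hΛ1 : Λ ≤ 1 := by
    rw [hΛ]
    exact csSup_le hne (by rintro x ⟨V, _, _, H, -, -, rfl⟩; exact den_le_one _ H)
  obtain ⟨c, hc, ε', hε', N0, hP⟩ := hpos Λ hΛ0 hΛ1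
  set N : ℕ := Fintype.card ι with hN
  have hN1 : 0 < N := Fintype.card_pos
  have hNR : (0 : ℝ) < N := by exact_mod_cast hN1
  obtain ⟨ε, hε⟩ : ∃ ε : ℝ, ε = min (min ε' ((Λ - kap k (l + 1)) / 2)) (min 1 (c / (2 * N))) :=
    ⟨_, rfl⟩
  have hε0 : 0 < ε := by
    rw [hε]
    refine lt_min (lt_min hε' ?_) (lt_min one_pos (by positivity))
    linarith
  have hεa : ε ≤ ε' := by rw [hε]; exact (min_le_left _ _).trans (min_le_left _ _)
  have hεb : ε ≤ (Λ - kap k (l + 1)) / 2 := by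
    rw [hε]; exact (min_le_left _ _).trans (min_le_right _ _)
  have hεc : ε ≤ 1 := by rw [hε]; exact (min_le_right _ _).trans (min_le_left _ _)
  have hεd : ε ≤ c / (2 * N) := by rw [hε]; exact (min_le_right _ _).trans (min_le_right _ _)
  have hlt : Λ - ε ^ 2 / 8 < sSup (DensM (l + 1) m q) := by
    rw [← hΛ]
    have : 0 < ε ^ 2 / 8 := by positivity
    linarith
  obtain ⟨_, ⟨V, _, _, H, hU, hC, rfl⟩, hd⟩ := exists_lt_of_lt_csSup hne hlt
  -- the blow-up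
  obtain ⟨V2, _, _, H2, hU2, hC2, hd2, -, hcard0⟩ := bigM hCLN (by omega) hU hC
    (2 * ((l : ℝ) + 1) / ε + N0) (by positivity)
  have hcard : 2 * ((l : ℝ) + 1) / ε ≤ Fintype.card V2 := by
    have : (0 : ℝ) ≤ N0 := Nat.cast_nonneg _
    linarith
  have hcN : N0 ≤ Fintype.card V2 := by
    have h1 : (0 : ℝ) < 2 * ((l : ℝ) + 1) / ε := by positivity
    have h2 : (N0 : ℝ) ≤ Fintype.card V2 := by linarith
    exact_mod_cast h2
  have hd3 : Λ - ε ^ 2 / 8 ≤ den (l + 1) H2 := by rw [hd2]; exact hd.le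
  have hreg := hREG V2 H2 l Λ ε hε0 hεc hΛ1 hcard
    (fun W hW => hSUB _ H2 (l + 1) m q W Λ hW hU2 hC2 hle) hd3
  have hd4 : Λ - ε ≤ den (l + 1) H2 := by
    have h1 : ε * ε ≤ ε * 1 := mul_le_mul_of_nonneg_left hεc hε0.le
    have h2 : ε ^ 2 = ε * ε := by ring
    linarith
  have hmany := hP ε hε0 hεa V2 H2 hU2 hC2 hcN hd4 hreg
  -- a configuration of vertices of large degree
  set n : ℕ := Fintype.card V2 with hn
  have hn0 : 0 < n := Fintype.card_pos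
  have hnR : (0 : ℝ) < n := by exact_mod_cast hn0
  set B : Finset V2 := univ.filter fun w => dg l H2 w ≤ Λ - ε with hB
  have hex : ∃ K : ι → V2, P _ H2 K ∧ ∀ i, K i ∉ B := by
    by_contra hno
    push Not at hno
    have h1 : (univ.filter fun K : ι → V2 => P _ H2 K) ⊆
        univ.filter fun K : ι → V2 => ∃ i, K i ∈ B := fun K hK =>
      mem_filter.mpr ⟨mem_univ _, hno K (mem_filter.mp hK).2⟩
    have h2 : ((univ.filter fun K : ι → V2 => P _ H2 K).card : ℝ) * n ≤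
        N * (B.card : ℝ) * (n : ℝ) ^ N := by
      have := (Nat.mul_le_mul_right n (card_le_card h1)).trans (hit_card (ι := ι) B)
      exact_mod_cast this
    have h3 : N * (B.card : ℝ) * (n : ℝ) ^ N ≤ c / 2 * n * (n : ℝ) ^ N := by
      refine mul_le_mul_of_nonneg_right ?_ (by positivity)
      have h5 : (N : ℝ) * (B.card : ℝ) ≤ N * (c / (2 * N) * n) :=
        mul_le_mul_of_nonneg_left (hreg.trans (mul_le_mul_of_nonneg_right hεd hnR.le)) hNR.le
      refine h5.trans (le_of_eq ?_)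
      field_simp
    have h4 : c * (n : ℝ) ^ N * n ≤ c / 2 * n * (n : ℝ) ^ N :=
      (mul_le_mul_of_nonneg_right hmany hnR.le).trans (h2.trans h3)
    have h6 : 0 < c * (n : ℝ) ^ N * n := by positivity
    have h7 : c / 2 * n * (n : ℝ) ^ N = c * (n : ℝ) ^ N * n / 2 := by ring
    linarith
  obtain ⟨K, hK, hKB⟩ := hex
  have hsum := hsum _ H2 K hU2 hC2 hK
  have hbig : ∀ i, Λ - ε < dg l H2 (K i) := by
    intro i
    have := hKB i
    rw [hB, mem_filter, not_and, not_le] at this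
    exact this (mem_univ _)
  have h8 : (Λ - ε) * N ≤ ∑ i, dg l H2 (K i) := by
    have : ∑ _i : ι, (Λ - ε) ≤ ∑ i, dg l H2 (K i) := sum_le_sum fun i _ => (hbig i).le
    rw [sum_const, card_univ, nsmul_eq_mul, mul_comm] at this
    exact this
  have h9 : (Λ - ε) * N ≤ kap k (l + 1) * N := h8.trans hsum
  have h10 : Λ - ε ≤ kap k (l + 1) := le_of_mul_le_mul_right h9 hNR
  linarith


/-- **Many configurations.** -/
theorem coreM (hGS : S_GS) (hNC : S_NC) (hCL : S_CLM) (hAV : S_AV) (hKK : S_KK) {l k q' r : ℕ}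
    (hl : 2 ≤ l) (hk : 2 ≤ k) (hq : 1 ≤ q') (hG : Good l k q' r) :
    ∃ ε' : ℝ, 0 < ε' ∧ ∃ c : ℝ, 0 < c ∧ ∃ c' : ℝ, 0 < c' ∧ ∃ q0 : ℕ, ∀ q : ℕ, q0 ≤ q →
      ∀ m : ℕ, k * (q - 1) + 1 ≤ m → (m : ℝ) ≤ (k + c') * q →
      ∀ (V : Type) [Fintype V] [Nonempty V] (H : Finset V → Prop), Unif (l + 1) H →
      ClsM (l + 1) m q H →
      ((univ.filter fun w : V => dg l H w ≤ kap k (l + 1) - ε').card : ℝ) ≤
        ε' * Fintype.card V → c ≤ pw (l + 1) k r H := by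
  obtain ⟨hA, ε1, hε1, c1, hc1, hB⟩ := hG
  have hkR : (0 : ℝ) < k := by exact_mod_cast (by omega : 0 < k)
  set m' : ℝ := ((k * (q' - 1) + 1 : ℕ) : ℝ) with hm'
  have hm'0 : 0 < m' := by rw [hm']; exact_mod_cast Nat.succ_pos _
  set D : ℝ := 2 ^ (k * r) with hD
  have hD0 : 0 < D := by positivity
  obtain ⟨δ, hδ⟩ : ∃ δ : ℝ, δ = min (1 / (8 * (k : ℝ) ^ 2 * m'))
      (min (ε1 / (8 * k * k * m')) (c1 / (16 * D * k * m'))) := ⟨_, rfl⟩
  have hδ0 : 0 < δ := by rw [hδ]; positivity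
  have hδa : 8 * (k : ℝ) ^ 2 * m' * δ ≤ 1 := by
    have h : δ ≤ 1 / (8 * (k : ℝ) ^ 2 * m') := by rw [hδ]; exact min_le_left _ _
    rwa [le_div_iff₀ (by positivity), mul_comm] at h
  obtain ⟨δ2, hδ2⟩ : ∃ δ2 : ℝ, δ2 = 4 * k * m' * δ := ⟨_, rfl⟩
  have hδ20 : 0 < δ2 := by rw [hδ2]; positivity
  have hδb : k * δ2 ≤ ε1 / 2 := by
    have h : δ ≤ ε1 / (8 * k * k * m') := by
      rw [hδ]; exact (min_le_right _ _).trans (min_le_left _ _)
    rw [le_div_iff₀ (by positivity)] at h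
    rw [hδ2]
    linarith
  have hδc : D * δ2 ≤ c1 / 4 := by
    have h : δ ≤ c1 / (16 * D * k * m') := by
      rw [hδ]; exact (min_le_right _ _).trans (min_le_right _ _)
    rw [le_div_iff₀ (by positivity)] at h
    rw [hδ2]
    linarith
  obtain ⟨τ, hτ⟩ : ∃ τ : ℝ, τ = min (δ / (2 * (1 + 4 * k) * (k : ℝ) ^ (l - 1)))
      (min (ε1 / (6 * k)) (c1 / (20 * D))) := ⟨_, rfl⟩
  have hτ0 : 0 < τ := by rw [hτ]; positivity
  have hτa : (τ + 2 * k * (2 * τ)) * (k : ℝ) ^ (l - 1) < δ := by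
    have h : τ ≤ δ / (2 * (1 + 4 * k) * (k : ℝ) ^ (l - 1)) := by rw [hτ]; exact min_le_left _ _
    rw [le_div_iff₀ (by positivity)] at h
    have e : (τ + 2 * k * (2 * τ)) * (k : ℝ) ^ (l - 1) =
        τ * (2 * (1 + 4 * k) * (k : ℝ) ^ (l - 1)) / 2 := by ring
    rw [e]
    linarith
  have hτb : k * τ ≤ ε1 / 6 := by
    have h : τ ≤ ε1 / (6 * k) := by rw [hτ]; exact (min_le_right _ _).trans (min_le_left _ _)
    rw [le_div_iff₀ (by positivity)] at h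
    linarith
  have hτc : D * τ ≤ c1 / 20 := by
    have h : τ ≤ c1 / (20 * D) := by rw [hτ]; exact (min_le_right _ _).trans (min_le_right _ _)
    rw [le_div_iff₀ (by positivity)] at h
    linarith
  obtain ⟨s, hs⟩ := exists_nat_gt (((2 * l + 2) / τ) ^ 2 : ℝ)
  have hs0 : 0 < s := by
    have h1 : (0 : ℝ) < ((2 * l + 2) / τ) ^ 2 := by positivity
    have h2 : (0 : ℝ) < s := h1.trans hs
    exact_mod_cast h2
  have hsR : (0 : ℝ) < s := by exact_mod_cast hs0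
  have hsq : (2 * l + 2) / Real.sqrt s ≤ τ := by
    rw [div_le_iff₀ (Real.sqrt_pos.mpr hsR)]
    have h1 : (2 * (l : ℝ) + 2) / τ ≤ Real.sqrt s := by
      rw [Real.le_sqrt (by positivity) hsR.le]
      exact hs.le
    rw [div_le_iff₀ hτ0] at h1
    linarith
  obtain ⟨c', hc', q0, hq0⟩ := hCL l k q' s δ (by omega) (by omega) hq hs0 hδ0 hδa
  refine ⟨τ, hτ0, c1 / 2, by positivity, c', hc', q0, ?_⟩
  intro q hqq m hm1 hm2 V _ _ H hU hC hbad
  set n : ℝ := (Fintype.card V : ℝ) with hn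
  have hn0 : 0 < n := by rw [hn]; exact_mod_cast Fintype.card_pos (α := V)
  obtain ⟨S, hS1, hS2, hS3⟩ := hGS V H l s (univ.filter fun w : V => dg l H w ≤ kap k (l + 1) - τ)
    τ hs0 hτ0.le hbad
  have hη : τ + (2 * l + 2) / Real.sqrt s ≤ 2 * τ := by linarith
  have hS1' : ((univ.filter fun i : Fin s => dg l H (S i) ≤ kap k (l + 1) - τ).card : ℝ) ≤
      2 * τ * s := by
    refine le_trans (le_of_eq ?_) (hS1.trans (mul_le_mul_of_nonneg_right hη hsR.le))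
    congr 2
    ext i
    simp
  have hS2' : (∑ i : Fin s, |sdg l H S i - dg l H (S i)|) ≤ 2 * τ * s :=
    hS2.trans (mul_le_mul_of_nonneg_right hη hsR.le)
  have hS3' : (∑ y : Fin l → V, |Wt l H S y - Dt l H y|) ≤ 2 * τ * n ^ l :=
    hS3.trans (mul_le_mul_of_nonneg_right hη (by positivity))
  have hind := hNC V H l k s S τ δ (2 * τ) hU (by omega) (by omega) hs0 hτ0.le (by positivity) hδ0
    hS1' hS2' hτa
  have hcl := hq0 q hqq m hm1 hm2 V H S hC hind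
  rw [← hm', ← hδ2] at hcl
  have hden := hA V _ (unif_der l H S _) hcl
  obtain ⟨hav1, hav2⟩ := hAV V H l k s S τ (2 * τ) δ2 hU (by omega) (by omega) hs0 hτ0.le
    (by positivity) hδ20.le hS1' hS3' hden
  have hpw := hB V _ (unif_der l H S _) hcl (by
    refine le_trans ?_ hav1
    have : (k : ℝ) * (τ + 2 * τ + δ2) = 3 * (k * τ) + k * δ2 := by ring
    rw [this]
    linarith)
  have hkk := hKK V H _ l k r (δ2 + τ + 2 * (2 * τ)) hl (unif_der l H S _) hav2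
  have h5 : D * (δ2 + τ + 2 * (2 * τ)) = D * δ2 + 5 * (D * τ) := by ring
  rw [← hD, h5] at hkk
  linarith

/-- **The step.** -/
theorem stepM (hGS : S_GS) (hNC : S_NC) (hCL : S_CLM) (hAV : S_AV) (hKK : S_KK) (hREG : S_REG)
    (hCLN : S_CLNM) (hSUB : S_SUBM) (hXA : S_XA) (hXC : S_XCM) {l k q' r : ℕ}
    (hl : 2 ≤ l) (hk : 2 ≤ k) (hq : 1 ≤ q') (hr : l + 1 ≤ r) (hG : Good l k q' r) :
    ∃ c' : ℝ, 0 < c' ∧ ∃ q0 : ℕ, ∀ q : ℕ, q0 ≤ q → ∀ m : ℕ, k * (q - 1) + 1 ≤ m →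
      (m : ℝ) ≤ (k + c') * q → GoodM (l + 1) k m q r := by
  obtain ⟨ε', hε', c, hc, c1, hc1, q1, hcore⟩ := coreM hGS hNC hCL hAV hKK hl hk hq hG
  obtain ⟨c2, hc2, q2, hq2⟩ := hXC l k q' r (by omega) (by omega) hq hr
  refine ⟨min c1 c2, lt_min hc1 hc2, max q1 q2, fun q hqq m hm1 hm2 => ?_⟩
  have hqR : (0 : ℝ) ≤ q := Nat.cast_nonneg _
  have hma : (m : ℝ) ≤ (k + c1) * q := hm2.trans (mul_le_mul_of_nonneg_right
    (by linarith [min_le_left c1 c2]) hqR)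
  have hmb : (m : ℝ) ≤ (k + c2) * q := hm2.trans (mul_le_mul_of_nonneg_right
    (by linarith [min_le_right c1 c2]) hqR)
  have hcore := hcore q ((le_max_left _ _).trans hqq) m hm1 hma
  have hq2 := hq2 q ((le_max_right _ _).trans hqq) m hm1 hmb
  have : Nonempty (Fin k × Fin r) := ⟨(⟨0, by omega⟩, ⟨0, by omega⟩)⟩
  have hA : SAM (l + 1) k m q := by
    refine supM hREG hCLN hSUB (Fin k × Fin r)
      (fun V H K => WC (l + 1) k r H K) ?_ ?_
    · intro Λ hΛ _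
      refine ⟨c, hc, ε', hε', 0, fun ε hε hεε V _ _ H hU hC _ _ hbad => ?_⟩
      have hn : (0 : ℝ) ≤ Fintype.card V := by positivity
      have h1 : ((univ.filter fun w : V => dg l H w ≤ kap k (l + 1) - ε').card : ℝ) ≤
          ((univ.filter fun w : V => dg l H w ≤ Λ - ε).card : ℝ) := by
        refine Nat.cast_le.mpr (card_le_card ?_)
        intro w hw
        exact mem_filter.mpr ⟨mem_univ _, (mem_filter.mp hw).2.trans (by linarith)⟩
      have h := pw_card (hcore V H hU hC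
        (h1.trans (hbad.trans (mul_le_mul_of_nonneg_right hεε hn))))
      refine h.trans (le_of_eq ?_)
      rw [card_inst]
    · intro V _ _ H K hU hC hK
      have hcl := hq2 V H K hC hK
      exact hXA V H l k (Fin k × Fin r) K hU (by omega) (by omega)
        (hG.1 V _ (unif_der l H K _) hcl)
  refine ⟨hA, ?_⟩
  obtain ⟨ε, hε⟩ : ∃ ε : ℝ, ε = min ε' 1 := ⟨_, rfl⟩
  have hε0 : 0 < ε := by rw [hε]; exact lt_min hε' one_pos
  have hε1 : ε ≤ 1 := by rw [hε]; exact min_le_right _ _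
  have hεε : ε ≤ ε' := by rw [hε]; exact min_le_left _ _
  refine ⟨ε ^ 2 / 8, by positivity, c, hc, ?_⟩
  intro V _ _ H hU hC hd
  obtain ⟨V2, _, _, H2, hU2, hC2, hd2, hp2, hcard⟩ := bigM hCLN (by omega) hU hC
    (2 * ((l : ℝ) + 1) / ε) (by positivity)
  have hreg := hREG V2 H2 l (kap k (l + 1)) ε hε0 hε1 (kap_le_one _ _) hcard
    (fun W hW => hSUB _ H2 (l + 1) m q W _ hW hU2 hC2 hA) (by rw [hd2]; exact hd)
  rw [← hp2 k r]
  refine hcore _ H2 hU2 hC2 ?_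
  refine le_trans ?_ (hreg.trans (mul_le_mul_of_nonneg_right hεε (by positivity)))
  refine Nat.cast_le.mpr (card_le_card ?_)
  intro w hw
  exact mem_filter.mpr ⟨mem_univ _, (mem_filter.mp hw).2.trans (by linarith)⟩

/-- **All uniformities.** -/
theorem goodM (hGS : S_GS) (hNC : S_NC) (hCL : S_CLM) (hAV : S_AV) (hKK : S_KK) (hREG : S_REG)
    (hCLN : S_CLNM) (hSUB : S_SUBM) (hXA : S_XA) (hXC : S_XCM) (hBA : S_BA) (hBB : S_BB) {k r : ℕ}
    (hk : 2 ≤ k) : ∀ l : ℕ, 2 ≤ l → l ≤ r → ∃ q0 : ℕ, ∀ q : ℕ, q0 ≤ q → Good l k q r := by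
  intro l hl
  induction l, hl using Nat.le_induction with
  | base =>
    intro _
    refine ⟨2, fun q hq => ⟨hBA k q (by omega) hq, ?_⟩⟩
    obtain ⟨ε, hε, c, hc, h⟩ := hBB k r hk
    exact ⟨ε, hε, c, hc, fun V _ _ H hU _ hd => h V H hU hd⟩
  | succ l hl ih =>
    intro hlr
    obtain ⟨q0, hq0⟩ := ih (by omega)
    obtain ⟨c', hc', q1, hq1⟩ := stepM hGS hNC hCL hAV hKK hREG hCLN hSUB hXA hXC hl hk
      (q' := max q0 1) (le_max_right _ _) hlr (hq0 _ (le_max_left _ _))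
    obtain ⟨q2, hq2⟩ := exists_nat_gt (1 / c')
    refine ⟨max q1 (max q2 1), fun q hq => hq1 q ((le_max_left _ _).trans hq) _ le_rfl ?_⟩
    have h1 : 1 ≤ q := (le_max_right _ _).trans ((le_max_right _ _).trans hq)
    have h2 : q2 ≤ q := (le_max_left _ _).trans ((le_max_right _ _).trans hq)
    have h3 : 1 / c' ≤ (q : ℝ) := hq2.le.trans (by exact_mod_cast h2)
    rw [div_le_iff₀ hc'] at h3
    have h4 : ((k * (q - 1) + 1 : ℕ) : ℝ) ≤ k * q + 1 := by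
      have : k * (q - 1) + 1 ≤ k * q + 1 := by
        have := Nat.mul_le_mul_left k (Nat.sub_le q 1)
        omega
      exact_mod_cast this
    linarith

/-- **The density theorem in the class.** -/
theorem densM (hGS : S_GS) (hNC : S_NC) (hCL : S_CLM) (hAV : S_AV) (hKK : S_KK) (hREG : S_REG)
    (hCLN : S_CLNM) (hSUB : S_SUBM) (hXA : S_XA) (hXC : S_XCM) (hBA : S_BA) (hBB : S_BB) {t k : ℕ}
    (ht : 3 ≤ t) (hk : 2 ≤ k) : ∃ c' : ℝ, 0 < c' ∧ ∃ q0 : ℕ, ∀ q : ℕ, q0 ≤ q → ∀ m : ℕ,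
      k * (q - 1) + 1 ≤ m → (m : ℝ) ≤ (k + c') * q → SAM t k m q := by
  obtain ⟨l, rfl⟩ : ∃ l, t = l + 1 := ⟨t - 1, by omega⟩
  obtain ⟨q0, h⟩ := goodM hGS hNC hCL hAV hKK hREG hCLN hSUB hXA hXC hBA hBB (r := l + 1) hk l
    (by omega) (by omega)
  obtain ⟨c', hc', q1, hq1⟩ := stepM hGS hNC hCL hAV hKK hREG hCLN hSUB hXA hXC (by omega) hk
    (q' := max q0 1) (r := l + 1) (le_max_right _ _) le_rfl (h _ (le_max_left _ _))
  exact ⟨c', hc', q1, fun q hq m h1 h2 => (hq1 q hq m h1 h2).1⟩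

/-- uniformity three, two parts -/
theorem sa32M (hREG : S_REG) (hCLN : S_CLNM) (hSUB : S_SUBM) (hY4 : S_Y4M) {q b : ℕ} (hb : 1 ≤ b)
    (hq : 3 * b + 3 ≤ q) : SAM 3 2 (2 * (q - 1) + b) q := by
  have hab : (∃ a : ℕ, q = 2 * a + b + 1 ∧ 3 * b + 1 ≤ q) ∨
      (∃ a : ℕ, q = 2 * a + b + 2 ∧ 3 * b + 3 ≤ q) := by
    rcases Nat.even_or_odd' (q - b - 1) with ⟨a, ha | ha⟩
    · exact Or.inl ⟨a, by omega, by omega⟩
    · exact Or.inr ⟨a, by omega, by omega⟩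
  refine supM hREG hCLN hSUB (l := 2) (k := 2) (Fin 4)
    (fun V H K => ∀ e : Finset (Fin 4), e.card = 3 → H (e.image K)) ?_
    (fun V _ _ H K h1 h2 h3 => hY4 q b hb hab V H K h1 h2 h3)
  intro Λ hΛ _
  rw [kap23] at hΛ
  refine ⟨2 * (Λ - 3 / 4), by linarith, (Λ - 3 / 4) / 2, by linarith, 0,
    fun ε hε hεε V _ _ H hU hC _ hd _ => ?_⟩
  have h := many4 H
  have h2 : 2 * (Λ - 3 / 4) ≤ 4 * den 3 H - 3 := by linarith
  have h3 := (mul_le_mul_of_nonneg_right h2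
    (show (0 : ℝ) ≤ (Fintype.card V : ℝ) ^ 4 by positivity)).trans h
  rw [Fintype.card_fin]
  refine h3.trans (le_of_eq ?_)
  rw [card_inst]

end Pool.Agent.N594.CT
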