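import Pool.Agent.N594.CT.Stm4
import Pool.Agent.N570.CT.BA

/-! # Graphs: Turán's theorem, all `m` (after helper570) -/

set_option autoImplicit false

open Finset
open scoped Classical

namespace Pool.Agent.N594.CT.BAM

open Pool.Agent.N594.CT Pool.Agent.N570.CT.BA

theorem cfM {V : Type} (hW : S_WM) (H : Finset V → Prop) (k m q : ℕ) (hq : 2 ≤ q)
    (hm1 : k * (q - 1) + 1 ≤ m) (hm2 : m ≤ (k + 1) * (q - 1)) (hC : ClsM 2 m q H) : (gr H).CliqueFree (k + 1) := by
  rw [SimpleGraph.cliqueFree_iff]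
  refine ⟨fun f => ?_⟩
  set ρ : Fin (k + 1) → V := fun i => f i with hρ
  set c : Fin (k + 1) → ℕ := fun i => if i = Fin.last k then m - k * (q - 1) else q - 1 with hc
  have hsum : ∑ i, c i = m := by
    rw [Fin.sum_univ_castSucc]
    have h1 : ∀ i : Fin k, c i.castSucc = q - 1 := by
      intro i
      simp only [hc]
      rw [if_neg (Fin.castSucc_lt_last i).ne]
    simp only [h1, sum_const, card_univ, Fintype.card_fin, smul_eq_mul]
    have h2 : c (Fin.last k) = m - k * (q - 1) := by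
      simp only [hc]
      rw [if_pos trivial]
    rw [h2]
    omega
  obtain ⟨I, hI, hq2⟩ := hW 2 m q V H hC (Fin (k + 1)) ρ c hsum
  have hc1 : ∀ i, c i ≤ q - 1 := by
    intro i
    simp only [hc]
    split_ifs
    · have h3 : (k + 1) * (q - 1) = k * (q - 1) + (q - 1) := by ring
      omega
    · exact le_refl _
  have hcard : 1 < I.card := by
    by_contra hcon
    rw [not_lt] at hcon
    have h1 : ∑ i ∈ I, c i ≤ I.card * (q - 1) := by
      rw [← smul_eq_mul]
      exact sum_le_card_nsmul I c (q - 1) fun i _ => hc1 i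
    have h2 : I.card * (q - 1) ≤ 1 * (q - 1) := Nat.mul_le_mul_right _ hcon
    omega
  obtain ⟨i, hi, j, hj, hij⟩ := one_lt_card.1 hcard
  have he : ({i, j} : Finset (Fin (k + 1))) ⊆ I := by
    intro x hx
    rw [mem_insert, mem_singleton] at hx
    rcases hx with rfl | rfl
    · exact hi
    · exact hj
  refine hI _ he (card_pair hij) ?_
  have hadj : (gr H).Adj (f i) (f j) := f.toHom.map_rel (by simpa using hij)
  rw [image_insert, image_singleton]
  exact hadj.2

/-- graphs, all `m` -/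
theorem main (hW : S_WM) (k m q : ℕ) (hk : 1 ≤ k) (hq : 2 ≤ q) (hm1 : k * (q - 1) + 1 ≤ m)
    (hm2 : m ≤ (k + 1) * (q - 1)) : SAM 2 k m q := by
  intro V _ _ H hU hC
  have h1 := (cfM hW H k m q hq hm1 hm2 hC).card_edgeFinset_le
  simp only at h1
  rw [← SimpleGraph.card_edgeFinset_turanGraph] at h1
  have h2 := SimpleGraph.mul_card_edgeFinset_turanGraph_le (n := Fintype.card V) (r := k)
  set n := Fintype.card V with hn
  have hn0 : 0 < n := Fintype.card_pos
  have h3 : k * E 2 H ≤ (k - 1) * n ^ 2 := by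
    rw [E_eq H hU]
    calc k * (2 * (gr H).edgeFinset.card) = 2 * k * (gr H).edgeFinset.card := by ring
      _ ≤ 2 * k * (SimpleGraph.turanGraph n k).edgeFinset.card := by
          refine Nat.mul_le_mul_left _ ?_
          convert h1 using 1
      _ ≤ (k - 1) * n ^ 2 := by
          convert h2 using 1
  have h4 : (k : ℝ) * E 2 H ≤ ((k : ℝ) - 1) * (n : ℝ) ^ 2 := by
    have h5 : ((k * E 2 H : ℕ) : ℝ) ≤ (((k - 1) * n ^ 2 : ℕ) : ℝ) := by exact_mod_cast h3
    push_cast [Nat.cast_sub hk] at h5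
    exact h5
  unfold den kap
  have hkR : (0 : ℝ) < k := by exact_mod_cast hk
  have hnR : (0 : ℝ) < n := by exact_mod_cast hn0
  rw [div_le_iff₀ (by positivity)]
  have h6 : (1 - 1 / (k : ℝ) ^ (2 - 1)) * (n : ℝ) ^ 2 = ((k : ℝ) - 1) * (n : ℝ) ^ 2 / k := by
    rw [show (2 - 1 : ℕ) = 1 from rfl, pow_one]
    field_simp
  rw [h6, le_div_iff₀ hkR]
  linarith

end Pool.Agent.N594.CT.BAM
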