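import Pool.Agent.N594.CT.Norm
import Pool.Agent.N594.CT.FinM

/-!
# Norms of the degrees of `s`-sets, and Turán's construction, arbitrary `m`
-/

set_option autoImplicit false

open Finset
open scoped Classical

namespace Pool.Agent.N594.CT

open Pool.Agent.N442.ES

/-- **The upper bound for large `p`.** -/
theorem nsum_upperM (hTR : S_TRM) {s k m t : ℕ} (hs : 1 ≤ s) (hk : 1 ≤ k) (hm1 : 1 ≤ m)
    (hst : s ≤ t) (hA : SAM s k m t) {η : ℝ} (hη : 0 < η) : ∃ p0 : ℝ, 1 ≤ p0 ∧ ∃ N : ℕ, ∀ p : ℝ, p0 ≤ p → ∀ n : ℕ,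
      N ≤ n → ∀ G : Finset (Finset (Fin n)), (∀ e ∈ G, e.card = t) →
      KFree t m G →
      nsum s t p G ≤ (1 - 1 / (k : ℝ) ^ (s - 1) + η) * (n.choose s : ℝ) := by
  obtain ⟨δ, hδ, N, hN⟩ := hTR s k m t hs hk hm1 hA (η / 2) (by positivity)
  obtain ⟨ε, hε⟩ : ∃ ε : ℝ, ε = min (δ / 4 ^ m) (1 / 2) := ⟨_, rfl⟩
  have hε0 : 0 < ε := by rw [hε]; positivity
  have hε1 : ε ≤ 1 / 2 := by rw [hε]; exact min_le_right _ _
  have hεδ : 4 ^ m * ε ≤ δ := by
    have h : ε ≤ δ / 4 ^ m := by rw [hε]; exact min_le_left _ _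
    rw [le_div_iff₀ (by positivity)] at h
    linarith
  obtain ⟨P, hP⟩ := exists_pow_lt_of_lt_one (show (0 : ℝ) < η / 2 by positivity)
    (show 1 - ε < 1 by linarith)
  refine ⟨max 1 P, le_max_left _ _, max N t, fun p hp n hn G hG hK => ?_⟩
  have hp1 : 1 ≤ p := (le_max_left _ _).trans hp
  have hpP : (P : ℝ) ≤ p := (le_max_right _ _).trans hp
  have hnt : t ≤ n := (le_max_right _ _).trans hn
  set C : ℝ := ((n - s).choose (t - s) : ℝ) with hC
  have hC0 : 0 < C := by
    rw [hC]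
    exact_mod_cast Nat.choose_pos (by omega)
  have hD := hN n ((le_max_left _ _).trans hn) (full s t ε G)
    (fun e he => (mem_powersetCard.mp (mem_filter.mp he).1).2)
    ((Pool.Agent.N424.CT.FD.main s t m n ε G hst hε0.le hG hK).trans
      (mul_le_mul_of_nonneg_right hεδ (by positivity)))
  have hterm : ∀ X ∈ (univ : Finset (Fin n)).powersetCard s,
      ((degr G X : ℝ) / C) ^ p ≤ (if X ∈ full s t ε G then 1 else 0) + η / 2 := by
    intro X hX
    have hXs := (mem_powersetCard.mp hX).2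
    have h0 : (0 : ℝ) ≤ (degr G X : ℝ) / C := by positivity
    by_cases hf : X ∈ full s t ε G
    · rw [if_pos hf]
      have h1 : (degr G X : ℝ) / C ≤ 1 := by
        rw [div_le_one hC0, hC]
        have := degr_le hG (X := X) (by omega)
        rw [hXs] at this
        exact_mod_cast this
      have h2 := Real.rpow_le_one h0 h1 (by linarith : (0 : ℝ) ≤ p)
      linarith
    · rw [if_neg hf, zero_add]
      have h1 : (degr G X : ℝ) / C ≤ 1 - ε := by
        rw [div_le_iff₀ hC0]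
        by_contra hcon
        push Not at hcon
        exact hf (mem_filter.mpr ⟨hX, hcon.le⟩)
      have h2 : ((degr G X : ℝ) / C) ^ p ≤ (1 - ε) ^ p :=
        Real.rpow_le_rpow h0 h1 (by linarith)
      have h3 : (1 - ε) ^ p ≤ (1 - ε) ^ (P : ℝ) :=
        Real.rpow_le_rpow_of_exponent_ge (by linarith) (by linarith) hpP
      rw [Real.rpow_natCast] at h3
      linarith
  have hsum := sum_le_sum hterm
  rw [sum_add_distrib, sum_const, card_powersetCard, card_univ, Fintype.card_fin,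
    nsmul_eq_mul] at hsum
  have h1 : (∑ X ∈ (univ : Finset (Fin n)).powersetCard s,
      (if X ∈ full s t ε G then (1 : ℝ) else 0)) ≤ ((full s t ε G).card : ℝ) := by
    rw [sum_ite_mem, sum_const, nsmul_eq_mul, mul_one]
    exact_mod_cast card_le_card inter_subset_right
  unfold nsum
  rw [← hC]
  have hn0 : (0 : ℝ) ≤ (n.choose s : ℝ) := Nat.cast_nonneg _
  nlinarith [hsum, h1, hD]

/-- Turán's construction has the local property. -/
theorem TC_localM {s k m q n : ℕ} (hk : 1 ≤ k) (hq : 1 ≤ q) (hm : k * (q - 1) + 1 ≤ m) :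
    Local m q (TC s (cm k : Fin n → ℕ)) := by
  intro S hS
  obtain ⟨S', hS', hc⟩ := exists_subset_card_eq (show k * (q - 1) + 1 ≤ S.card by omega)
  obtain ⟨J, hJ, h⟩ := TC_local (s := s) hk hq S' hc
  exact ⟨J, hJ.trans hS', h⟩

/-- Turán's construction has no complete subgraph. -/
theorem TC_kfreeM {k m q n : ℕ} (hk : 1 ≤ k) (hq : 1 ≤ q) (hm : k * (q - 1) + 1 ≤ m) :
    KFree q m (TC q (cm k : Fin n → ℕ)) := by
  intro S hS
  obtain ⟨S', hS', hc⟩ := exists_subset_card_eq (show k * (q - 1) + 1 ≤ S.card by omega)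
  obtain ⟨J, hJ, h⟩ := TC_kfree hk hq S' hc
  exact ⟨J, hJ.trans hS', h⟩

end Pool.Agent.N594.CT
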