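import Pool.Agent.N594.CT.FinM
import Pool.Agent.N50.CT.TR

/-!
# CT/TR (helper50): the transfer if there are few bad sequences
-/

set_option autoImplicit false

open Finset
open scoped Classical

namespace Pool.Agent.N594.CT.TRM

open Pool.Agent.N442.ES Pool.Agent.N442.LP Pool.Agent.N594.CT Pool.Agent.N50.CT.TR

/-- the pattern of a blow-up without bad sequence is in the class -/
theorem clsM_of' {t m n s k' : ℕ} (hm : 1 ≤ m) {D : Finset (Finset (Fin n))}
    {X : Finset (Finset (Fin k'))} {y : Fin k' → Fin m → Fin n}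
    (hy : ∀ f : Fin k' → Fin m, (fun i => y i (f i)) ∈ SR s D X)
    (hi : ∀ i, Function.Injective (y i))
    (hb : ¬ Bdd t m k' m n D y) :
    ClsM s m t (fun Z : Finset (Fin k') => Z.card = s ∧ Z ∈ X) := by
  intro σ
  have hSR : ∀ f : Fin k' → Fin m, Function.Injective (fun i => y i (f i)) ∧
      ∀ e : Finset (Fin k'), e.card = s → (e.image (fun i => y i (f i)) ∈ D ↔ e ∈ X) := fun f =>
    (mem_filter.mp (hy f)).2
  obtain ⟨v, hv⟩ : ∃ v : Fin m → Fin n, v = fun a => y (σ a) a := ⟨_, rfl⟩
  have hinj : Function.Injective v := by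
    intro a b hab
    by_contra hne
    rw [hv] at hab
    by_cases hs : σ a = σ b
    · simp only [hs] at hab
      exact hne (hi _ hab)
    · have h1 := (hSR (fun i => if i = σ a then a else b)).1
      have h2 : (fun i => y i ((fun i => if i = σ a then a else b) i)) (σ a) =
          (fun i => y i ((fun i => if i = σ a then a else b) i)) (σ b) := by
        simp only [if_pos, if_neg (Ne.symm hs)]
        exact hab
      exact hs (h1 h2)
  have hnb : v ∉ badm t m D := by
    intro h
    refine hb ⟨fun a => (σ a, a), fun a b hab => (Prod.mk.inj hab).2, ?_⟩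
    rw [hv] at h
    exact h
  have hJ : ∃ J : Finset (Fin m), J.card = t ∧ ∀ X' ⊆ J, X'.image v ∉ D := by
    by_contra hcon
    push Not at hcon
    exact hnb (mem_filter.mpr ⟨mem_univ _, hinj, hcon⟩)
  obtain ⟨J, hJc, hJi⟩ := hJ
  refine ⟨J, hJc, ?_⟩
  rintro e he hec ⟨hc, hX⟩
  have hσ : Set.InjOn σ e := by
    have : (e.image σ).card = e.card := by
      rw [hec, ← hc]
      congr 1
      ext x
      simp
    exact card_image_iff.mp this
  obtain ⟨f, hf⟩ : ∃ f : Fin k' → Fin m, f = fun i =>
    if h : ∃ a, a ∈ e ∧ σ a = i then h.choose else ⟨0, by omega⟩ := ⟨_, rfl⟩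
  have hfe : ∀ a ∈ e, f (σ a) = a := by
    intro a ha
    have h : ∃ b, b ∈ e ∧ σ b = σ a := ⟨a, ha, rfl⟩
    rw [hf]
    simp only [dif_pos h]
    exact hσ h.choose_spec.1 ha h.choose_spec.2
  have h1 := ((hSR f).2 (e.image σ) (by
    rw [← hc]
    congr 1
    ext x
    simp)).2 (by
    have h6 := hX
    rw [image_inst _ (instDecidableEqFin k') σ e] at h6
    exact h6)
  have h2 : (e.image σ).image (fun i => y i (f i)) = e.image v := by
    rw [image_image]
    refine image_congr fun a ha => ?_
    simp only [Function.comp_apply, hfe a (mem_coe.mp ha), hv]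
  rw [h2] at h1
  exact hJi e he h1

/-- **CT/TR** -/
theorem main : S_TRM := by
  intro s k m t hs hk hm hA η hη
  have hkap : 0 ≤ kap k s := by
    unfold kap
    have h1 : (1 : ℝ) ≤ (k : ℝ) ^ (s - 1) := one_le_pow₀ (by exact_mod_cast hk)
    have h2 : 1 / (k : ℝ) ^ (s - 1) ≤ 1 := by
      rw [div_le_one (by linarith)]
      exact h1
    linarith
  obtain ⟨δ, hδ, N, hN⟩ := main_r s (kap k s) (fun _ _ => True)
    (fun k' T n D y => Bdd t m k' T n D y)
    (fun n D => ((badm t m D).card : ℝ) / (n : ℝ) ^ m) hkap hs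
    (fun k' T => ⟨((k' * T : ℕ) : ℝ) ^ m, by positivity, fun n hn D =>
      count_bad_real t m k' T n hn D⟩)
    (fun k' hk' => ⟨m, hm, fun n D _ X y hy hi hX => by
      by_contra hb
      have h := QRM_of hk' hA (clsM_of' hm hy hi hb)
      linarith⟩) hη
  refine ⟨δ, hδ, max N 1, fun n hn D h1 h2 => ?_⟩
  have hn1 : (0 : ℝ) < n := by
    exact_mod_cast lt_of_lt_of_le one_pos ((le_max_right _ _).trans hn)
  refine hN n ((le_max_left _ _).trans hn) D h1 trivial ?_
  rw [div_le_iff₀ (by positivity)]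
  exact h2

end Pool.Agent.N594.CT.TRM
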