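import Pool.Agent.N594.CT.All2
import Pool.Agent.N594.CT.Asm3
import Pool.Agent.N594.CT.NormM
import Pool.Agent.N594.CT.TRM
import Pool.Agent.N594.CT.WM
import Pool.Agent.N594.CT.CLNM
import Pool.Agent.N594.CT.SUBM
import Pool.Agent.N594.CT.BAM
import Pool.Agent.N407.CT.CLM
import Pool.Agent.N971.CT.XCM
import Pool.Agent.N72.CT.Y4M

/-!
# Turán's problem with larger independent sets: all parts together, arbitrary `m`
-/

set_option autoImplicit false

open Finset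
open scoped Classical

namespace Pool.Agent.N594.CT

/-- The density theorem for all `t ≥ 3`, `k ≥ 2`, large `q` and `k (q - 1) < m ≤ (k + c) q`. -/
theorem densM_all {t k : ℕ} (ht : 3 ≤ t) (hk : 2 ≤ k) : ∃ c' : ℝ, 0 < c' ∧ ∃ q0 : ℕ, ∀ q : ℕ,
    q0 ≤ q → ∀ m : ℕ, k * (q - 1) + 1 ≤ m → (m : ℝ) ≤ (k + c') * q → SAM t k m q :=
  densM (Pool.Agent.N123.CT.GS.main Pool.Agent.N738.CT.VAR.main) Pool.Agent.N861.CT.NC.main
    (Pool.Agent.N407.CT.CLM.main Pool.Agent.N594.CT.WM.main) Pool.Agent.N40.CT.AV.main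
    Pool.Agent.N441.CT.KK.main Pool.Agent.N945.CT.REG.main Pool.Agent.N594.CT.CLNM.main
    Pool.Agent.N594.CT.SUBM.main Pool.Agent.N481.CT.XA.main
    (Pool.Agent.N971.CT.XCM.main Pool.Agent.N594.CT.WM.main) hBA
    (Pool.Agent.N40.CT.BB.main hBA) ht hk

/-- Uniformity three, two parts. -/
theorem densM_three {m q : ℕ} (hq : 4 ≤ q) (hm : 2 * (q - 1) < m)
    (h : m = 2 * q - 1 ∨ 3 * m + 9 ≤ 7 * q) : SAM 3 2 m q := by
  rcases h with h | h
  · have e : m = 2 * (q - 1) + 1 := by omega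
    rw [e]
    exact dens_three hq
  · obtain ⟨b, rfl⟩ : ∃ b, m = 2 * (q - 1) + b := ⟨m - 2 * (q - 1), by omega⟩
    exact sa32M Pool.Agent.N945.CT.REG.main Pool.Agent.N594.CT.CLNM.main
      Pool.Agent.N594.CT.SUBM.main
      (Pool.Agent.N72.CT.Y4M.main Pool.Agent.N594.CT.WM.main Pool.Agent.N530.CT.WT.main)
      (by omega) (by omega)

end Pool.Agent.N594.CT
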