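import Pool.Agent.N594.CT.Stm

/-!
# Turán's problem with larger independent sets: the induction
-/

set_option autoImplicit false

open Finset
open scoped Classical

namespace Pool.Agent.N594.CT

theorem unif_der (l : ℕ) {V ι : Type} [Fintype ι] (H : Finset V → Prop) (S : ι → V) (θ : ℝ) :
    Unif l (der l H S θ) := fun _ h => h.1

theorem E_le (t : ℕ) {V : Type} [Fintype V] (H : Finset V → Prop) : E t H ≤ Fintype.card V ^ t := by
  unfold E
  refine (card_le_card (filter_subset _ _)).trans (le_of_eq ?_)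
  rw [card_univ, Fintype.card_fun, Fintype.card_fin]

theorem den_le_one (t : ℕ) {V : Type} [Fintype V] [Nonempty V] (H : Finset V → Prop) :
    den t H ≤ 1 := by
  unfold den
  rw [div_le_one (by have := Fintype.card_pos (α := V); positivity)]
  exact_mod_cast E_le t H

theorem kap_le_one (k t : ℕ) : kap k t ≤ 1 := by
  unfold kap
  have : (0 : ℝ) ≤ 1 / (k : ℝ) ^ (t - 1) := by positivity
  linarith

/-- the instances do not matter -/
theorem card_inst {α : Type} (i1 i2 : Fintype α) (p : α → Prop) (d1 d2 : DecidablePred p) :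
    (@Finset.filter α p d1 (@Finset.univ α i1)).card =
      (@Finset.filter α p d2 (@Finset.univ α i2)).card := by
  have h : i1 = i2 := Subsingleton.elim _ _
  have h2 : d1 = d2 := Subsingleton.elim _ _
  rw [h, h2]

/-- sequences which meet a small set -/
theorem hit_card {V ι : Type} [Fintype V] [Fintype ι] (B : Finset V) :
    (univ.filter fun K : ι → V => ∃ i, K i ∈ B).card * Fintype.card V ≤
      Fintype.card ι * B.card * Fintype.card V ^ Fintype.card ι := by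
  have h1 : (univ.filter fun K : ι → V => ∃ i, K i ∈ B) ⊆
      (univ : Finset ι).biUnion fun i => univ.filter fun K : ι → V => K i ∈ B := by
    intro K hK
    obtain ⟨i, hi⟩ := (mem_filter.mp hK).2
    exact mem_biUnion.mpr ⟨i, mem_univ _, mem_filter.mpr ⟨mem_univ _, hi⟩⟩
  have h2 : ∀ i : ι, (univ.filter fun K : ι → V => K i ∈ B).card * Fintype.card V =
      B.card * Fintype.card V ^ Fintype.card ι := by
    intro i
    have e1 : (univ.filter fun K : ι → V => K i ∈ B) =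
        Fintype.piFinset (fun j => if j = i then B else univ) := by
      ext K
      rw [mem_filter, Fintype.mem_piFinset]
      constructor
      · rintro ⟨-, h⟩ j
        by_cases hj : j = i
        · rw [if_pos hj, hj]; exact h
        · rw [if_neg hj]; exact mem_univ _
      · intro h
        have := h i
        rw [if_pos rfl] at this
        exact ⟨mem_univ _, this⟩
    rw [e1, Fintype.card_piFinset, ← Finset.mul_prod_erase univ _ (mem_univ i), if_pos rfl]
    have e2 : ∏ j ∈ univ.erase i, (if j = i then B else (univ : Finset V)).card =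
        Fintype.card V ^ (Fintype.card ι - 1) := by
      rw [prod_congr rfl (g := fun _ => Fintype.card V), prod_const, card_erase_of_mem (mem_univ _),
        card_univ]
      intro j hj
      rw [if_neg (ne_of_mem_erase hj), card_univ]
    rw [e2, mul_assoc, ← pow_succ]
    have : 0 < Fintype.card ι := Fintype.card_pos_iff.mpr ⟨i⟩
    congr 2
    omega
  calc (univ.filter fun K : ι → V => ∃ i, K i ∈ B).card * Fintype.card V
      ≤ (∑ i : ι, (univ.filter fun K : ι → V => K i ∈ B).card) * Fintype.card V :=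
        Nat.mul_le_mul_right _ ((card_le_card h1).trans card_biUnion_le)
    _ = ∑ i : ι, (univ.filter fun K : ι → V => K i ∈ B).card * Fintype.card V := sum_mul _ _ _
    _ = Fintype.card ι * B.card * Fintype.card V ^ Fintype.card ι := by
        rw [sum_congr rfl fun i _ => h2 i, sum_const, card_univ, smul_eq_mul, mul_assoc]

/-- blow-ups with many vertices -/
theorem big (hCLN : S_CLN) {V : Type} [Fintype V] [Nonempty V] {H : Finset V → Prop} {t k q : ℕ}
    (ht : 1 ≤ t) (hU : Unif t H) (hC : Cls t k q H) (C : ℝ) (hC0 : 0 < C) :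
    ∃ (V2 : Type) (_ : Fintype V2) (_ : Nonempty V2) (H2 : Finset V2 → Prop), Unif t H2 ∧
      Cls t k q H2 ∧ den t H2 = den t H ∧ (∀ r : ℕ, pw t k r H2 = pw t k r H) ∧
      C ≤ Fintype.card V2 := by
  obtain ⟨M, hM⟩ := exists_nat_gt C
  have hM1 : 1 ≤ M := by
    have h2 : (0 : ℝ) < M := hC0.trans hM
    exact_mod_cast h2
  have : Nonempty (Fin M) := ⟨⟨0, hM1⟩⟩
  obtain ⟨H2, hU2, hC2, hd2, hp2⟩ := hCLN V H t k q M hM1 ht hU hC
  refine ⟨V × Fin M, inferInstance, inferInstance, H2, hU2, hC2, hd2, hp2, ?_⟩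
  rw [Fintype.card_prod, Fintype.card_fin]
  have h1 : (1 : ℝ) ≤ Fintype.card V := by exact_mod_cast Fintype.card_pos (α := V)
  have h2 : (0 : ℝ) ≤ M := Nat.cast_nonneg M
  rw [Nat.cast_mul]
  exact hM.le.trans ((one_mul (M : ℝ)).symm.le.trans (mul_le_mul_of_nonneg_right h1 h2))

/-- the set of all densities in the class -/
def Dens (t k q : ℕ) : Set ℝ := {x | ∃ (V : Type) (_ : Fintype V) (_ : Nonempty V)
  (H : Finset V → Prop), Unif t H ∧ Cls t k q H ∧ den t H = x}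

/-- **The extremal argument.** If nearly extremal graphs of the class with few vertices of small
degree have many configurations whose derived graph is in the class, then the density is at most
`kap`. -/
theorem supA (hREG : S_REG) (hCLN : S_CLN) (hSUB : S_SUB) (hXA : S_XA) {l k q' q : ℕ} (hl : 1 ≤ l)
    (hk : 1 ≤ k) (ι : Type) [Fintype ι] [Nonempty ι]
    (P : ∀ V : Type, (Finset V → Prop) → (ι → V) → Prop) (hA : SA l k q')
    (hpos : ∀ Λ : ℝ, kap k (l + 1) < Λ → Λ ≤ 1 → ∃ c : ℝ, 0 < c ∧ ∃ ε' : ℝ, 0 < ε' ∧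
      ∀ (ε : ℝ), 0 < ε → ε ≤ ε' → ∀ (V : Type) [Fintype V] [Nonempty V] (H : Finset V → Prop),
      Unif (l + 1) H → Cls (l + 1) k q H → Λ - ε ≤ den (l + 1) H →
      ((univ.filter fun w : V => dg l H w ≤ Λ - ε).card : ℝ) ≤ ε * Fintype.card V →
      c * (Fintype.card V : ℝ) ^ Fintype.card ι ≤ ((univ.filter fun K : ι → V => P V H K).card : ℝ))
    (hder : ∀ (V : Type) (H : Finset V → Prop) (K : ι → V), Cls (l + 1) k q H → P V H K →
      Cls l k q' (der l H K ((1 - 1 / k) * (Fintype.card ι : ℝ)))) :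
    SA (l + 1) k q := by
  intro V0 _ _ H0 hU0 hC0
  by_contra hcon
  push Not at hcon
  have hbdd : BddAbove (Dens (l + 1) k q) := by
    refine ⟨1, ?_⟩
    rintro x ⟨V, _, _, H, -, -, rfl⟩
    exact den_le_one _ H
  have hne : (Dens (l + 1) k q).Nonempty := ⟨den (l + 1) H0, V0, _, ‹_›, H0, hU0, hC0, rfl⟩
  obtain ⟨Λ, hΛ⟩ : ∃ Λ : ℝ, Λ = sSup (Dens (l + 1) k q) := ⟨_, rfl⟩
  have hle : ∀ (U : Type) [Fintype U] [Nonempty U] (G : Finset U → Prop), Unif (l + 1) G →
      Cls (l + 1) k q G → den (l + 1) G ≤ Λ := by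
    intro U _ _ G h1 h2
    rw [hΛ]
    exact le_csSup hbdd ⟨U, _, ‹_›, G, h1, h2, rfl⟩
  have hΛ0 : kap k (l + 1) < Λ := hcon.trans_le (hle V0 H0 hU0 hC0)
  have hΛ1 : Λ ≤ 1 := by
    rw [hΛ]
    exact csSup_le hne (by rintro x ⟨V, _, _, H, -, -, rfl⟩; exact den_le_one _ H)
  obtain ⟨c, hc, ε', hε', hP⟩ := hpos Λ hΛ0 hΛ1
  set N : ℕ := Fintype.card ι with hN
  have hN1 : 0 < N := Fintype.card_pos
  have hNR : (0 : ℝ) < N := by exact_mod_cast hN1
  obtain ⟨ε, hε⟩ : ∃ ε : ℝ, ε = min (min ε' ((Λ - kap k (l + 1)) / 2)) (min 1 (c / (2 * N))) :=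
    ⟨_, rfl⟩
  have hε0 : 0 < ε := by
    rw [hε]
    refine lt_min (lt_min hε' ?_) (lt_min one_pos (by positivity))
    linarith
  have hεa : ε ≤ ε' := by rw [hε]; exact (min_le_left _ _).trans (min_le_left _ _)
  have hεb : ε ≤ (Λ - kap k (l + 1)) / 2 := by
    rw [hε]; exact (min_le_left _ _).trans (min_le_right _ _)
  have hεc : ε ≤ 1 := by rw [hε]; exact (min_le_right _ _).trans (min_le_left _ _)
  have hεd : ε ≤ c / (2 * N) := by rw [hε]; exact (min_le_right _ _).trans (min_le_right _ _)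
  have hlt : Λ - ε ^ 2 / 8 < sSup (Dens (l + 1) k q) := by
    rw [← hΛ]
    have : 0 < ε ^ 2 / 8 := by positivity
    linarith
  obtain ⟨_, ⟨V, _, _, H, hU, hC, rfl⟩, hd⟩ := exists_lt_of_lt_csSup hne hlt
  -- the blow-up
  obtain ⟨V2, _, _, H2, hU2, hC2, hd2, -, hcard⟩ := big hCLN (by omega) hU hC
    (2 * ((l : ℝ) + 1) / ε) (by positivity)
  have hd3 : Λ - ε ^ 2 / 8 ≤ den (l + 1) H2 := by rw [hd2]; exact hd.le
  have hreg := hREG V2 H2 l Λ ε hε0 hεc hΛ1 hcard
    (fun W hW => hSUB _ H2 (l + 1) k q W Λ hW hU2 hC2 hle) hd3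
  have hd4 : Λ - ε ≤ den (l + 1) H2 := by
    have h1 : ε * ε ≤ ε * 1 := mul_le_mul_of_nonneg_left hεc hε0.le
    have h2 : ε ^ 2 = ε * ε := by ring
    linarith
  have hmany := hP ε hε0 hεa V2 H2 hU2 hC2 hd4 hreg
  -- a configuration of vertices of large degree
  set n : ℕ := Fintype.card V2 with hn
  have hn0 : 0 < n := Fintype.card_pos
  have hnR : (0 : ℝ) < n := by exact_mod_cast hn0
  set B : Finset V2 := univ.filter fun w => dg l H2 w ≤ Λ - ε with hB
  have hex : ∃ K : ι → V2, P _ H2 K ∧ ∀ i, K i ∉ B := by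
    by_contra hno
    push Not at hno
    have h1 : (univ.filter fun K : ι → V2 => P _ H2 K) ⊆
        univ.filter fun K : ι → V2 => ∃ i, K i ∈ B := fun K hK =>
      mem_filter.mpr ⟨mem_univ _, hno K (mem_filter.mp hK).2⟩
    have h2 : ((univ.filter fun K : ι → V2 => P _ H2 K).card : ℝ) * n ≤
        N * (B.card : ℝ) * (n : ℝ) ^ N := by
      have := (Nat.mul_le_mul_right n (card_le_card h1)).trans (hit_card (ι := ι) B)
      exact_mod_cast this
    have h3 : N * (B.card : ℝ) * (n : ℝ) ^ N ≤ c / 2 * n * (n : ℝ) ^ N := by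
      refine mul_le_mul_of_nonneg_right ?_ (by positivity)
      have h5 : (N : ℝ) * (B.card : ℝ) ≤ N * (c / (2 * N) * n) :=
        mul_le_mul_of_nonneg_left (hreg.trans (mul_le_mul_of_nonneg_right hεd hnR.le)) hNR.le
      refine h5.trans (le_of_eq ?_)
      field_simp
    have h4 : c * (n : ℝ) ^ N * n ≤ c / 2 * n * (n : ℝ) ^ N :=
      (mul_le_mul_of_nonneg_right hmany hnR.le).trans (h2.trans h3)
    have h6 : 0 < c * (n : ℝ) ^ N * n := by positivity
    have h7 : c / 2 * n * (n : ℝ) ^ N = c * (n : ℝ) ^ N * n / 2 := by ring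
    linarith
  obtain ⟨K, hK, hKB⟩ := hex
  have hcl := hder _ H2 K hC2 hK
  have hden := hA _ _ (unif_der l H2 K _) hcl
  have hsum := hXA _ H2 l k ι K hU2 hl hk hden
  have hbig : ∀ i, Λ - ε < dg l H2 (K i) := by
    intro i
    have := hKB i
    rw [hB, mem_filter, not_and, not_le] at this
    exact this (mem_univ _)
  have h8 : (Λ - ε) * N ≤ ∑ i, dg l H2 (K i) := by
    have : ∑ _i : ι, (Λ - ε) ≤ ∑ i, dg l H2 (K i) := sum_le_sum fun i _ => (hbig i).le
    rw [sum_const, card_univ, nsmul_eq_mul, mul_comm] at this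
    exact this
  have h9 : (Λ - ε) * N ≤ kap k (l + 1) * N := h8.trans hsum
  have h10 : Λ - ε ≤ kap k (l + 1) := le_of_mul_le_mul_right h9 hNR
  linarith

/-- the number of configurations `WC` from the density `pw` -/
theorem pw_card {t k r : ℕ} {V : Type} [Fintype V] [Nonempty V] {H : Finset V → Prop} {c : ℝ}
    (h : c ≤ pw t k r H) : c * (Fintype.card V : ℝ) ^ Fintype.card (Fin k × Fin r) ≤
      ((univ.filter fun K : Fin k × Fin r → V => WC t k r H K).card : ℝ) := by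
  unfold pw at h
  have h0 : (0 : ℝ) < Fintype.card V := by exact_mod_cast Fintype.card_pos (α := V)
  rw [le_div_iff₀ (by positivity)] at h
  rw [Fintype.card_prod, Fintype.card_fin, Fintype.card_fin]
  exact h

/-- **Many configurations.** -/
theorem core (hGS : S_GS) (hNC : S_NC) (hCL : S_CL) (hAV : S_AV) (hKK : S_KK) {l k q' r : ℕ}
    (hl : 2 ≤ l) (hk : 2 ≤ k) (hq : 1 ≤ q') (hG : Good l k q' r) :
    ∃ ε' : ℝ, 0 < ε' ∧ ∃ c : ℝ, 0 < c ∧ ∃ q0 : ℕ, ∀ q : ℕ, q0 ≤ q →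
      ∀ (V : Type) [Fintype V] [Nonempty V] (H : Finset V → Prop), Unif (l + 1) H →
      Cls (l + 1) k q H →
      ((univ.filter fun w : V => dg l H w ≤ kap k (l + 1) - ε').card : ℝ) ≤
        ε' * Fintype.card V → c ≤ pw (l + 1) k r H := by
  obtain ⟨hA, ε1, hε1, c1, hc1, hB⟩ := hG
  have hkR : (0 : ℝ) < k := by exact_mod_cast (by omega : 0 < k)
  set m' : ℝ := ((k * (q' - 1) + 1 : ℕ) : ℝ) with hm'
  have hm'0 : 0 < m' := by rw [hm']; exact_mod_cast Nat.succ_pos _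
  set D : ℝ := 2 ^ (k * r) with hD
  have hD0 : 0 < D := by positivity
  obtain ⟨δ, hδ⟩ : ∃ δ : ℝ, δ = min (1 / (4 * (k : ℝ) ^ 2 * m'))
      (min (ε1 / (4 * k * k * m')) (c1 / (8 * D * k * m'))) := ⟨_, rfl⟩
  have hδ0 : 0 < δ := by rw [hδ]; positivity
  have hδa : 4 * (k : ℝ) ^ 2 * m' * δ ≤ 1 := by
    have h : δ ≤ 1 / (4 * (k : ℝ) ^ 2 * m') := by rw [hδ]; exact min_le_left _ _
    rwa [le_div_iff₀ (by positivity), mul_comm] at h
  obtain ⟨δ2, hδ2⟩ : ∃ δ2 : ℝ, δ2 = 2 * k * m' * δ := ⟨_, rfl⟩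
  have hδ20 : 0 < δ2 := by rw [hδ2]; positivity
  have hδb : k * δ2 ≤ ε1 / 2 := by
    have h : δ ≤ ε1 / (4 * k * k * m') := by
      rw [hδ]; exact (min_le_right _ _).trans (min_le_left _ _)
    rw [le_div_iff₀ (by positivity)] at h
    rw [hδ2]
    linarith
  have hδc : D * δ2 ≤ c1 / 4 := by
    have h : δ ≤ c1 / (8 * D * k * m') := by
      rw [hδ]; exact (min_le_right _ _).trans (min_le_right _ _)
    rw [le_div_iff₀ (by positivity)] at h
    rw [hδ2]
    linarith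
  obtain ⟨τ, hτ⟩ : ∃ τ : ℝ, τ = min (δ / (2 * (1 + 4 * k) * (k : ℝ) ^ (l - 1)))
      (min (ε1 / (6 * k)) (c1 / (20 * D))) := ⟨_, rfl⟩
  have hτ0 : 0 < τ := by rw [hτ]; positivity
  have hτa : (τ + 2 * k * (2 * τ)) * (k : ℝ) ^ (l - 1) < δ := by
    have h : τ ≤ δ / (2 * (1 + 4 * k) * (k : ℝ) ^ (l - 1)) := by rw [hτ]; exact min_le_left _ _
    rw [le_div_iff₀ (by positivity)] at h
    have e : (τ + 2 * k * (2 * τ)) * (k : ℝ) ^ (l - 1) =
        τ * (2 * (1 + 4 * k) * (k : ℝ) ^ (l - 1)) / 2 := by ring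
    rw [e]
    linarith
  have hτb : k * τ ≤ ε1 / 6 := by
    have h : τ ≤ ε1 / (6 * k) := by rw [hτ]; exact (min_le_right _ _).trans (min_le_left _ _)
    rw [le_div_iff₀ (by positivity)] at h
    linarith
  have hτc : D * τ ≤ c1 / 20 := by
    have h : τ ≤ c1 / (20 * D) := by rw [hτ]; exact (min_le_right _ _).trans (min_le_right _ _)
    rw [le_div_iff₀ (by positivity)] at h
    linarith
  obtain ⟨s, hs⟩ := exists_nat_gt (((2 * l + 2) / τ) ^ 2 : ℝ)
  have hs0 : 0 < s := by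
    have h1 : (0 : ℝ) < ((2 * l + 2) / τ) ^ 2 := by positivity
    have h2 : (0 : ℝ) < s := h1.trans hs
    exact_mod_cast h2
  have hsR : (0 : ℝ) < s := by exact_mod_cast hs0
  have hsq : (2 * l + 2) / Real.sqrt s ≤ τ := by
    rw [div_le_iff₀ (Real.sqrt_pos.mpr hsR)]
    have h1 : (2 * (l : ℝ) + 2) / τ ≤ Real.sqrt s := by
      rw [Real.le_sqrt (by positivity) hsR.le]
      exact hs.le
    rw [div_le_iff₀ hτ0] at h1
    linarith
  obtain ⟨q0, hq0⟩ := hCL l k q' s δ (by omega) (by omega) hq hs0 hδ0 hδa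
  refine ⟨τ, hτ0, c1 / 2, by positivity, q0, ?_⟩
  intro q hqq V _ _ H hU hC hbad
  set n : ℝ := (Fintype.card V : ℝ) with hn
  have hn0 : 0 < n := by rw [hn]; exact_mod_cast Fintype.card_pos (α := V)
  obtain ⟨S, hS1, hS2, hS3⟩ := hGS V H l s (univ.filter fun w : V => dg l H w ≤ kap k (l + 1) - τ)
    τ hs0 hτ0.le hbad
  have hη : τ + (2 * l + 2) / Real.sqrt s ≤ 2 * τ := by linarith
  have hS1' : ((univ.filter fun i : Fin s => dg l H (S i) ≤ kap k (l + 1) - τ).card : ℝ) ≤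
      2 * τ * s := by
    refine le_trans (le_of_eq ?_) (hS1.trans (mul_le_mul_of_nonneg_right hη hsR.le))
    congr 2
    ext i
    simp
  have hS2' : (∑ i : Fin s, |sdg l H S i - dg l H (S i)|) ≤ 2 * τ * s :=
    hS2.trans (mul_le_mul_of_nonneg_right hη hsR.le)
  have hS3' : (∑ y : Fin l → V, |Wt l H S y - Dt l H y|) ≤ 2 * τ * n ^ l :=
    hS3.trans (mul_le_mul_of_nonneg_right hη (by positivity))
  have hind := hNC V H l k s S τ δ (2 * τ) hU (by omega) (by omega) hs0 hτ0.le (by positivity) hδ0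
    hS1' hS2' hτa
  have hcl := hq0 q hqq V H S hC hind
  rw [← hm', ← hδ2] at hcl
  have hden := hA V _ (unif_der l H S _) hcl
  obtain ⟨hav1, hav2⟩ := hAV V H l k s S τ (2 * τ) δ2 hU (by omega) (by omega) hs0 hτ0.le
    (by positivity) hδ20.le hS1' hS3' hden
  have hpw := hB V _ (unif_der l H S _) hcl (by
    refine le_trans ?_ hav1
    have : (k : ℝ) * (τ + 2 * τ + δ2) = 3 * (k * τ) + k * δ2 := by ring
    rw [this]
    linarith)
  have hkk := hKK V H _ l k r (δ2 + τ + 2 * (2 * τ)) hl (unif_der l H S _) hav2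
  have h5 : D * (δ2 + τ + 2 * (2 * τ)) = D * δ2 + 5 * (D * τ) := by ring
  rw [← hD, h5] at hkk
  linarith

/-- **The step.** -/
theorem step (hGS : S_GS) (hNC : S_NC) (hCL : S_CL) (hAV : S_AV) (hKK : S_KK) (hREG : S_REG)
    (hCLN : S_CLN) (hSUB : S_SUB) (hXA : S_XA) (hXC : S_XC) {l k q' r : ℕ}
    (hl : 2 ≤ l) (hk : 2 ≤ k) (hq : 1 ≤ q') (hr : l + 1 ≤ r) (hG : Good l k q' r) :
    ∃ q0 : ℕ, ∀ q : ℕ, q0 ≤ q → Good (l + 1) k q r := by
  obtain ⟨ε', hε', c, hc, q1, hcore⟩ := core hGS hNC hCL hAV hKK hl hk hq hG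
  obtain ⟨q2, hq2⟩ := hXC l k q' r (by omega) (by omega) hq hr
  refine ⟨max q1 q2, fun q hqq => ?_⟩
  have hcore := hcore q ((le_max_left _ _).trans hqq)
  have hq2 := hq2 q ((le_max_right _ _).trans hqq)
  have : Nonempty (Fin k × Fin r) := ⟨(⟨0, by omega⟩, ⟨0, by omega⟩)⟩
  have hA : SA (l + 1) k q := by
    refine supA hREG hCLN hSUB hXA (by omega) (by omega) (Fin k × Fin r)
      (fun V H K => WC (l + 1) k r H K) hG.1 ?_ (fun V H K h1 h2 => hq2 V H K h1 h2)
    intro Λ hΛ _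
    refine ⟨c, hc, ε', hε', fun ε hε hεε V _ _ H hU hC _ hbad => ?_⟩
    have hn : (0 : ℝ) ≤ Fintype.card V := by positivity
    have h1 : ((univ.filter fun w : V => dg l H w ≤ kap k (l + 1) - ε').card : ℝ) ≤
        ((univ.filter fun w : V => dg l H w ≤ Λ - ε).card : ℝ) := by
      refine Nat.cast_le.mpr (card_le_card ?_)
      intro w hw
      exact mem_filter.mpr ⟨mem_univ _, (mem_filter.mp hw).2.trans (by linarith)⟩
    have h := pw_card (hcore V H hU hC
      (h1.trans (hbad.trans (mul_le_mul_of_nonneg_right hεε hn))))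
    refine h.trans (le_of_eq ?_)
    rw [card_inst]
  refine ⟨hA, ?_⟩
  obtain ⟨ε, hε⟩ : ∃ ε : ℝ, ε = min ε' 1 := ⟨_, rfl⟩
  have hε0 : 0 < ε := by rw [hε]; exact lt_min hε' one_pos
  have hε1 : ε ≤ 1 := by rw [hε]; exact min_le_right _ _
  have hεε : ε ≤ ε' := by rw [hε]; exact min_le_left _ _
  refine ⟨ε ^ 2 / 8, by positivity, c, hc, ?_⟩
  intro V _ _ H hU hC hd
  obtain ⟨V2, _, _, H2, hU2, hC2, hd2, hp2, hcard⟩ := big hCLN (by omega) hU hC
    (2 * ((l : ℝ) + 1) / ε) (by positivity)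
  have hreg := hREG V2 H2 l (kap k (l + 1)) ε hε0 hε1 (kap_le_one _ _) hcard
    (fun W hW => hSUB _ H2 (l + 1) k q W _ hW hU2 hC2 hA) (by rw [hd2]; exact hd)
  rw [← hp2 r]
  refine hcore _ H2 hU2 hC2 ?_
  refine le_trans ?_ (hreg.trans (mul_le_mul_of_nonneg_right hεε (by positivity)))
  have : (univ.filter fun w => dg l H2 w ≤ kap k (l + 1) - ε') ⊆
      univ.filter fun w => dg l H2 w ≤ kap k (l + 1) - ε := by
    intro w hw
    refine mem_filter.mpr ⟨mem_univ _, (mem_filter.mp hw).2.trans (by linarith)⟩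
  exact_mod_cast card_le_card this

/-- **All uniformities.** -/
theorem good (hGS : S_GS) (hNC : S_NC) (hCL : S_CL) (hAV : S_AV) (hKK : S_KK) (hREG : S_REG)
    (hCLN : S_CLN) (hSUB : S_SUB) (hXA : S_XA) (hXC : S_XC) (hBA : S_BA) (hBB : S_BB) {k r : ℕ}
    (hk : 2 ≤ k) : ∀ l : ℕ, 2 ≤ l → l ≤ r → ∃ q0 : ℕ, ∀ q : ℕ, q0 ≤ q → Good l k q r := by
  intro l hl
  induction l, hl using Nat.le_induction with
  | base =>
    intro _
    refine ⟨2, fun q hq => ⟨hBA k q (by omega) hq, ?_⟩⟩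
    obtain ⟨ε, hε, c, hc, h⟩ := hBB k r hk
    exact ⟨ε, hε, c, hc, fun V _ _ H hU _ hd => h V H hU hd⟩
  | succ l hl ih =>
    intro hlr
    obtain ⟨q0, hq0⟩ := ih (by omega)
    exact step hGS hNC hCL hAV hKK hREG hCLN hSUB hXA hXC hl hk (q' := max q0 1)
      (le_max_right _ _) hlr (hq0 _ (le_max_left _ _))

/-- **The density theorem in the class.** -/
theorem dens (hGS : S_GS) (hNC : S_NC) (hCL : S_CL) (hAV : S_AV) (hKK : S_KK) (hREG : S_REG)
    (hCLN : S_CLN) (hSUB : S_SUB) (hXA : S_XA) (hXC : S_XC) (hBA : S_BA) (hBB : S_BB) {t k : ℕ}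
    (ht : 2 ≤ t) (hk : 2 ≤ k) : ∃ q0 : ℕ, ∀ q : ℕ, q0 ≤ q → SA t k q := by
  obtain ⟨q0, h⟩ := good hGS hNC hCL hAV hKK hREG hCLN hSUB hXA hXC hBA hBB hk t ht le_rfl
  exact ⟨q0, fun q hq => (h q hq).1⟩

end Pool.Agent.N594.CT
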